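import Pool.Agent.Helper71.GD.Step
import Pool.Agent.Helper69.GE.Limit

/-!
# GD-11 AllP: holes of arbitrarily small density are sufficient for regular windows
-/

set_option autoImplicit false

open MeasureTheory Set

namespace Pool.Agent.Helper71.GD

open Pool.Agent.Helper69.GE

theorem pd_mono {D C : ℕ} {δ δ' : ℝ} (h : δ ≤ δ') (hp : PD D C δ) : PD D C δ' := by
  intro R hR
  obtain ⟨ε, h1, h2, h3⟩ := hp R hR
  refine ⟨ε, h1, h2, fun l => ?_⟩
  obtain ⟨m, B, h4, h5, h6⟩ := h3 l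
  refine ⟨m, B, h4, h5, fun α hα S u hu k hk => ?_⟩
  obtain ⟨H, g1, g2, g3, g4⟩ := h6 α hα S u hu k hk
  exact ⟨H, g1, g2, g3.trans (ENNReal.ofReal_le_ofReal h), g4⟩

theorem pd_one (D C : ℕ) : PD D C 1 := by
  intro R hR
  refine ⟨1 / 2, by norm_num, le_rfl, fun l => ⟨0, l + 1, by omega, by omega,
    fun α hα S u hu k hk => ⟨univ, ?_, ?_, ?_, ?_⟩⟩⟩
  · intro z; simp
  · intro y z _; simp
  · rw [univ_inter, Real.volume_Ico]; simp
  · intro x r hr
    have hα0 : 0 < α := by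
      by_contra hcon
      push Not at hcon
      have : (C : ℝ) * α ≤ 0 := mul_nonpos_of_nonneg_of_nonpos (Nat.cast_nonneg _) hcon
      linarith
    have h1 : (0 : ℝ) < cnt S k (l + 1) := by
      refine lt_of_lt_of_le ?_ hk.low
      have : (0 : ℝ) < ((l + 1 : ℕ) : ℝ) := by positivity
      nlinarith
    obtain ⟨n, h2, h3, h4⟩ := exists_of_cnt_pos (S := S) (a := k) (l := l + 1)
      (by exact_mod_cast h1)
    exact ⟨n, h2, h3, h4, fun z _ => mem_univ z⟩

theorem all_pd (D C : ℕ) (hC : 0 < C) (δ : ℝ) (hδ : 0 < δ) : PD D C δ := by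
  obtain ⟨lam, hlam, hs⟩ := step D C hC
  exact limit (p := PD D C) hlam (fun _ _ h hp => pd_mono h hp) (pd_one D C) hs δ hδ

end Pool.Agent.Helper71.GD
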