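import Pool.Agent.Helper69.GE.PatLow
import Pool.Agent.Helper69.GE.Pair

/-!
# GD-03 BlockHit: `GE.block_hit` with a bound for the whole span of the block only

`φ = 2 ^ (-f)`, `L = 2 ^ f`, `w_(j+1) ≥ 2 w_j` for `j + 1 < L`,
`2 ^ (f + 1) w_(L-1) ≤ 2 ^ q w_0`, `w_0 h ≥ 1`, `δ / 4 ≤ |H ∩ [0, 1)| ≤ δ`. Let `Q = [α, α + h)` and
`E_j = {κ | X + κ w_j ∈ Cen f q m H}` (measurable), `N = ∑_{j < L} 1_{E_j}`.

* `∫_Q N ≥ L (h / 2) (3 / 4) φ (δ / 4) = (3 / 32) h δ` (`per_scale_lower` for `Cen`, `cen_volume`,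
  `cen_per`, `L φ = 1`; note `w_j h ≥ w_0 h ≥ 1`).
* `∫_Q N ^ 2 = ∑_j |E_j ∩ Q| + 2 ∑_{i < j} |E_i ∩ E_j ∩ Q| ≤ L 2 h δ φ +
  2 ∑_{i < j} 16 h δ φ (φ + 2 ^ (-(j - i))) ≤ h δ (2 + 16 (L φ) ^ 2 + 32) = 50 h δ`, by `single`,
  `pair` and `Cen ⊆ Pat` (for `i < j < L` we have `2 w_i ≤ w_j` and
  `w_j ≤ 2 ^ (C' L) w_i ≤ 2 ^ (q - f - 1) w_i`, and `w_i / w_j ≤ 2 ^ (-(j - i))`;
  `∑_{i < j < L} 2 ^ (-(j - i)) ≤ L`).
* For every real `a`: `1_{N ≥ 1} ≥ 2 a N - a ^ 2 N ^ 2`. With `a = 3 / 1600`: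
  `|{N ≥ 1} ∩ Q| ≥ (2 a (3 / 32) - 50 a ^ 2) h δ = h δ 9 / 51200 ≥ h δ / 6000`.
* Since `Cen ⊆ Inr (Pat f q H) e` (`cen_subset`), the set in the theorem is contained in
  `Q \ {N ≥ 1}`.

The integrals can be avoided: all sets `E_j` are measurable, so integrate real valued indicator
functions on the finite measure space `volume.restrict Q`, or use `lintegral` with
`2 a N ≤ 1_{N ≥ 1} + a ^ 2 N ^ 2`.
-/

set_option autoImplicit false

open MeasureTheory Set

namespace Pool.Agent.Helper71.GD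

open Pool.Agent.Helper69.GE

private theorem w_bounds {L : ℕ} {w : ℕ → ℝ} (hw0 : 0 < w 0)
    (hw : ∀ j, j + 1 < L → 2 * w j ≤ w (j + 1)) :
    (∀ i, i < L → w 0 ≤ w i) ∧ ∀ i d, i + d < L → 2 ^ d * w i ≤ w (i + d) := by
  have h0 : ∀ i, i < L → w 0 ≤ w i := by
    intro i
    induction i with
    | zero => intro _; exact le_rfl
    | succ i ih =>
      intro hi
      have h1 := ih (by omega)
      have h2 := hw i hi
      linarith
  refine ⟨h0, ?_⟩
  intro i d
  induction d with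
  | zero => intro _; simp
  | succ d ih =>
    intro hd
    have h1 := ih (by omega)
    have h3 := hw (i + d) (by omega)
    rw [← add_assoc]
    calc (2 : ℝ) ^ (d + 1) * w i = 2 * (2 ^ d * w i) := by ring
      _ ≤ 2 * w (i + d) := by linarith
      _ ≤ _ := h3

private theorem geo_le (n : ℕ) : ∑ d ∈ Finset.range n, (1 / 2 : ℝ) ^ (d + 1) ≤ 1 := by
  have h1 : ∑ d ∈ Finset.range n, (1 / 2 : ℝ) ^ (d + 1) = 1 - (1 / 2) ^ n := by
    induction n with
    | zero => simp
    | succ n ih =>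
      rw [Finset.sum_range_succ, ih, pow_succ]
      ring
  rw [h1]
  have h2 : (0 : ℝ) ≤ (1 / 2) ^ n := by positivity
  linarith

private theorem row_le {L i : ℕ} (hi : i < L) {g : ℕ → ℝ} (h0 : g i = 1 / 8)
    (h1 : ∀ d, i + (d + 1) < L → g (i + (d + 1)) = (1 / 2 : ℝ) ^ (d + 1))
    (h2 : ∀ j, j < i → g j = (1 / 2 : ℝ) ^ (i - j)) :
    ∑ j ∈ Finset.range L, g j ≤ 17 / 8 := by
  obtain ⟨m, rfl⟩ := Nat.exists_eq_add_of_le (Nat.succ_le_of_lt hi)
  rw [Finset.sum_range_add, Nat.succ_eq_add_one, Finset.sum_range_succ, h0]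
  have e1 : ∑ j ∈ Finset.range i, g j = ∑ d ∈ Finset.range i, (1 / 2 : ℝ) ^ (d + 1) := by
    rw [← Finset.sum_range_reflect]
    refine Finset.sum_congr rfl fun j hj => ?_
    have hj' := Finset.mem_range.1 hj
    rw [h2 _ (by omega)]
    congr 1
    omega
  have e2 : ∑ x ∈ Finset.range m, g (i + 1 + x) = ∑ d ∈ Finset.range m, (1 / 2 : ℝ) ^ (d + 1) := by
    refine Finset.sum_congr rfl fun d hd => ?_
    have hd' := Finset.mem_range.1 hd
    rw [add_assoc, add_comm 1 d]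
    exact h1 d (by omega)
  rw [e1, e2]
  linarith [geo_le i, geo_le m]

private theorem second_moment (μ : Measure ℝ) [IsFiniteMeasure μ] (L : ℕ) (E : ℕ → Set ℝ)
    (hE : ∀ j, MeasurableSet (E j)) (a : ℝ) :
    2 * a * ∑ j ∈ Finset.range L, μ.real (E j) -
      a ^ 2 * ∑ i ∈ Finset.range L, ∑ j ∈ Finset.range L, μ.real (E i ∩ E j) ≤
        μ.real (⋃ j ∈ Finset.range L, E j) := by
  have hU : MeasurableSet (⋃ j ∈ Finset.range L, E j) :=
    Finset.measurableSet_biUnion _ fun j _ => hE j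
  have hint : ∀ s : Set ℝ, MeasurableSet s → Integrable (s.indicator (1 : ℝ → ℝ)) μ := fun s hs =>
    (integrable_const (1 : ℝ)).indicator hs
  have hi1 : Integrable (fun x => ∑ j ∈ Finset.range L, (E j).indicator (1 : ℝ → ℝ) x) μ :=
    integrable_finsetSum _ fun j _ => hint _ (hE j)
  have hi2 : Integrable (fun x => ∑ i ∈ Finset.range L, ∑ j ∈ Finset.range L,
      (E i ∩ E j).indicator (1 : ℝ → ℝ) x) μ :=
    integrable_finsetSum _ fun i _ => integrable_finsetSum _ fun j _ =>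
      hint _ ((hE i).inter (hE j))
  have key : ∀ x, 2 * a * ∑ j ∈ Finset.range L, (E j).indicator (1 : ℝ → ℝ) x -
      a ^ 2 * ∑ i ∈ Finset.range L, ∑ j ∈ Finset.range L, (E i ∩ E j).indicator (1 : ℝ → ℝ) x ≤
        (⋃ j ∈ Finset.range L, E j).indicator (1 : ℝ → ℝ) x := by
    intro x
    have e1 : ∑ i ∈ Finset.range L, ∑ j ∈ Finset.range L, (E i ∩ E j).indicator (1 : ℝ → ℝ) x =
        (∑ j ∈ Finset.range L, (E j).indicator (1 : ℝ → ℝ) x) *
          ∑ j ∈ Finset.range L, (E j).indicator (1 : ℝ → ℝ) x := by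
      rw [Finset.sum_mul_sum]
      refine Finset.sum_congr rfl fun i _ => Finset.sum_congr rfl fun j _ => ?_
      rw [inter_indicator_one, Pi.mul_apply]
    rw [e1]
    by_cases hx : x ∈ ⋃ j ∈ Finset.range L, E j
    · rw [indicator_of_mem hx, Pi.one_apply]
      nlinarith [sq_nonneg (1 - a * ∑ j ∈ Finset.range L, (E j).indicator (1 : ℝ → ℝ) x)]
    · rw [indicator_of_notMem hx]
      have e2 : ∑ j ∈ Finset.range L, (E j).indicator (1 : ℝ → ℝ) x = 0 := by
        refine Finset.sum_eq_zero fun j hj => indicator_of_notMem (fun hxj => hx ?_) _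
        exact mem_iUnion₂.2 ⟨j, hj, hxj⟩
      rw [e2]
      simp
  have h1 := integral_mono ((hi1.const_mul (2 * a)).sub (hi2.const_mul (a ^ 2))) (hint _ hU) key
  rw [integral_indicator_one hU] at h1
  refine le_trans (le_of_eq ?_) h1
  rw [integral_sub' (hi1.const_mul (2 * a)) (hi2.const_mul (a ^ 2)), integral_const_mul,
    integral_const_mul, integral_finsetSum _ fun j _ => hint _ (hE j), integral_finsetSum _
    fun i _ => integrable_finsetSum _ fun j _ => hint _ ((hE i).inter (hE j))]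
  congr 2
  · refine Finset.sum_congr rfl fun j _ => ?_
    rw [integral_indicator_one (hE j)]
  · refine Finset.sum_congr rfl fun i _ => ?_
    rw [integral_finsetSum _ fun j _ => hint _ ((hE i).inter (hE j))]
    refine Finset.sum_congr rfl fun j _ => ?_
    rw [integral_indicator_one ((hE i).inter (hE j))]

theorem block_hit {f q m : ℕ} {H : Set ℝ} {δ e h : ℝ} {w : ℕ → ℝ} (hδ : 0 < δ) (hδ1 : δ ≤ 1)
    (hH : Per H) (hm : Cell m H)
    (hv : volume (H ∩ Ico 0 1) ≤ ENNReal.ofReal δ)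
    (hv' : ENNReal.ofReal (δ / 4) ≤ volume (H ∩ Ico 0 1))
    (he : e ≤ (1 / 2 : ℝ) ^ (q + m + 3))
    (hw0 : 0 < w 0) (hw : ∀ j, j + 1 < 2 ^ f → 2 * w j ≤ w (j + 1))
    (hspan : (2 : ℝ) ^ (f + 1) * w (2 ^ f - 1) ≤ 2 ^ q * w 0)
    (hh : 1 ≤ w 0 * h) (X α : ℝ) :
    volume ({κ : ℝ | ∀ j, j < 2 ^ f → X + κ * w j ∉ Inr (Pat f q H) e} ∩ Ico α (α + h)) ≤
      ENNReal.ofReal ((1 - δ / 6000) * h) := by
  have _ := hδ1
  have hh0 : 0 < h := by
    by_contra hn
    push Not at hn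
    have := mul_nonpos_of_nonneg_of_nonpos hw0.le hn
    linarith
  obtain ⟨hwl, hwd⟩ := w_bounds hw0 hw
  have hL1 : 1 ≤ 2 ^ f := Nat.one_le_two_pow
  have hfq1 : f + 1 ≤ q := by
    have h1 : (2 : ℝ) ^ (f + 1) ≤ 2 ^ q := by
      have h2 := hwl (2 ^ f - 1) (by omega)
      have h3 : (2 : ℝ) ^ (f + 1) * w 0 ≤ 2 ^ q * w 0 :=
        (mul_le_mul_of_nonneg_left h2 (by positivity)).trans hspan
      exact le_of_mul_le_mul_right h3 hw0
    exact (pow_le_pow_iff_right₀ (by norm_num : (1 : ℝ) < 2)).1 h1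
  have hfq : f ≤ q := by omega
  obtain ⟨φ, hφ⟩ : ∃ φ : ℝ, φ = (1 / 2 : ℝ) ^ f := ⟨_, rfl⟩
  have hφ0 : 0 < φ := by rw [hφ]; positivity
  have hLφ : ((2 ^ f : ℕ) : ℝ) * φ = 1 := by
    rw [hφ]
    push_cast
    rw [← mul_pow]
    norm_num
  have hwpos : ∀ i, i < 2 ^ f → 0 < w i := fun i hi => lt_of_lt_of_le hw0 (hwl i hi)
  have hwh : ∀ i, i < 2 ^ f → 1 ≤ w i * h := fun i hi =>
    hh.trans (mul_le_mul_of_nonneg_right (hwl i hi) hh0.le)
  -- the events
  obtain ⟨E, hE⟩ : ∃ E : ℕ → Set ℝ, E = fun j => {κ : ℝ | X + κ * w j ∈ Cen f q m H} := ⟨_, rfl⟩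
  have hEm : ∀ j, MeasurableSet (E j) := by
    intro j
    rw [hE]
    exact (measurable_const.add (measurable_id.mul_const (w j))) (cen_measurable hm)
  have hEr : ∀ s : Set ℝ, MeasurableSet s →
      (volume.restrict (Ico α (α + h))).real s = (volume (s ∩ Ico α (α + h))).toReal := by
    intro s hs
    rw [Measure.real, Measure.restrict_apply hs]
  have hCP : ∀ z, z ∈ Cen f q m H → z ∈ Pat f q H := fun z hz => hz.1
  -- lower bound of the first moment
  have hlow : ∀ j, j < 2 ^ f → h / 2 * (3 / 4 * φ * (δ / 4)) ≤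
      (volume.restrict (Ico α (α + h))).real (E j) := by
    intro j hj
    have h1 : ENNReal.ofReal (3 / 4 * φ * (δ / 4)) ≤ volume (Cen f q m H ∩ Ico 0 1) := by
      rw [cen_volume hfq hH hm, ENNReal.ofReal_mul (by positivity), ← hφ]
      gcongr
    have h2 := per_scale_lower (cen_per (f := f) (q := q) (m := m) hH) (cen_measurable hm)
      (by positivity) h1 (hwpos j hj) X α (hwh j hj)
    have h3 : {z : ℝ | w j * z + X ∈ Cen f q m H} = E j := by
      rw [hE]
      ext κ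
      change w j * κ + X ∈ Cen f q m H ↔ X + κ * w j ∈ Cen f q m H
      rw [add_comm, mul_comm]
    rw [h3] at h2
    rw [hEr _ (hEm j)]
    refine (ENNReal.ofReal_le_iff_le_toReal ?_).1 h2
    exact ne_top_of_le_ne_top (by rw [Real.volume_Ico]; exact ENNReal.ofReal_ne_top)
      (measure_mono inter_subset_right)
  -- the diagonal
  have hdiag : ∀ i, i < 2 ^ f → (volume.restrict (Ico α (α + h))).real (E i ∩ E i) ≤
      16 * h * δ * φ * (φ + 1 / 8) := by
    intro i hi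
    have hP : volume (Pat f q H ∩ Ico 0 1) ≤ ENNReal.ofReal ((1 / 2) ^ f * δ) := by
      rw [pat_volume hfq hH hm, ENNReal.ofReal_mul (by positivity)]
      gcongr
    have h1 := single hδ.le (pat_per hH) (cell_measurable (pat_cell hfq hm)) hP (hwpos i hi) X α
      (hwh i hi)
    rw [inter_self, hEr _ (hEm i)]
    refine ENNReal.toReal_le_of_le_ofReal (by positivity) ?_
    refine (measure_mono (inter_subset_inter_left _ ?_)).trans
      (h1.trans (ENNReal.ofReal_le_ofReal ?_))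
    · rw [hE]
      exact fun κ hκ => hCP _ hκ
    · rw [← hφ]
      have : 0 ≤ 16 * h * δ * φ * φ := by positivity
      linarith
  -- off the diagonal
  have hoff : ∀ i d, i + (d + 1) < 2 ^ f →
      (volume.restrict (Ico α (α + h))).real (E i ∩ E (i + (d + 1))) ≤
        16 * h * δ * φ * (φ + (1 / 2) ^ (d + 1)) := by
    intro i d hid
    have g1 := hwd i (d + 1) hid
    have hi : i < 2 ^ f := by omega
    have hpi := hwpos i hi
    have hpj := hwpos _ hid
    have h2d : (2 : ℝ) ≤ 2 ^ (d + 1) := by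
      rw [pow_succ]
      have : (1 : ℝ) ≤ 2 ^ d := one_le_pow₀ (by norm_num)
      linarith
    have g3 : 2 * w i ≤ w (i + (d + 1)) :=
      (mul_le_mul_of_nonneg_right h2d hpi.le).trans g1
    have g4 : (2 : ℝ) ^ (f + 1) * w (i + (d + 1)) ≤ 2 ^ q * w i := by
      have g6 : w (i + (d + 1)) ≤ w (2 ^ f - 1) := by
        obtain ⟨d', hd'⟩ : ∃ d', 2 ^ f - 1 = (i + (d + 1)) + d' := ⟨2 ^ f - 1 - (i + (d + 1)), by omega⟩
        have g7 := hwd (i + (d + 1)) d' (by omega)
        rw [← hd'] at g7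
        have g8 : (1 : ℝ) ≤ 2 ^ d' := one_le_pow₀ (by norm_num)
        nlinarith
      calc (2 : ℝ) ^ (f + 1) * w (i + (d + 1)) ≤ 2 ^ (f + 1) * w (2 ^ f - 1) := by gcongr
        _ ≤ 2 ^ q * w 0 := hspan
        _ ≤ 2 ^ q * w i := mul_le_mul_of_nonneg_left (hwl i hi) (by positivity)
    have h1 := pair hδ.le hH hm hv hpi g3 hfq1 g4 X α (hwh i hi)
    have g5 : w i / w (i + (d + 1)) ≤ (1 / 2) ^ (d + 1) := by
      rw [div_le_iff₀ hpj]
      calc w i = (1 / 2) ^ (d + 1) * (2 ^ (d + 1) * w i) := by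
            rw [← mul_assoc, ← mul_pow]
            norm_num
        _ ≤ (1 / 2) ^ (d + 1) * w (i + (d + 1)) := by gcongr
    rw [hEr _ ((hEm i).inter (hEm _))]
    refine ENNReal.toReal_le_of_le_ofReal (by positivity) ?_
    refine (measure_mono (inter_subset_inter_left _ ?_)).trans
      (h1.trans (ENNReal.ofReal_le_ofReal ?_))
    · rw [hE]
      exact fun κ hκ => ⟨hCP _ hκ.1, hCP _ hκ.2⟩
    · rw [← hφ]
      gcongr
  -- the second moment
  obtain ⟨g, hg⟩ : ∃ g : ℕ → ℕ → ℝ, g = fun i j => if i = j then 1 / 8 else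
    (1 / 2 : ℝ) ^ ((i - j) + (j - i)) := ⟨_, rfl⟩
  have hgg : ∀ i j, i < 2 ^ f → j < 2 ^ f →
      (volume.restrict (Ico α (α + h))).real (E i ∩ E j) ≤ 16 * h * δ * φ * (φ + g i j) := by
    intro i j hi hj
    rcases lt_trichotomy i j with h1 | h1 | h1
    · obtain ⟨d, rfl⟩ : ∃ d, j = i + (d + 1) := ⟨j - i - 1, by omega⟩
      have e1 : g i (i + (d + 1)) = (1 / 2) ^ (d + 1) := by
        rw [hg]
        simp only
        rw [if_neg (by omega)]
        congr 1
        omega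
      rw [e1]
      exact hoff i d hj
    · subst h1
      have e1 : g i i = 1 / 8 := by
        rw [hg]
        exact if_pos rfl
      rw [e1]
      exact hdiag i hi
    · obtain ⟨d, rfl⟩ : ∃ d, i = j + (d + 1) := ⟨i - j - 1, by omega⟩
      have e1 : g (j + (d + 1)) j = (1 / 2) ^ (d + 1) := by
        rw [hg]
        simp only
        rw [if_neg (by omega)]
        congr 1
        omega
      rw [e1, inter_comm]
      exact hoff j d hi
  have hrow : ∀ i, i < 2 ^ f → ∑ j ∈ Finset.range (2 ^ f),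
      (volume.restrict (Ico α (α + h))).real (E i ∩ E j) ≤ 50 * h * δ * φ := by
    intro i hi
    have hr := row_le hi (g := g i) (by rw [hg]; exact if_pos rfl)
      (fun d hd => by
        rw [hg]
        simp only
        rw [if_neg (by omega)]
        congr 1
        omega)
      (fun j hj => by
        rw [hg]
        simp only
        rw [if_neg (by omega)]
        congr 1
        omega)
    calc ∑ j ∈ Finset.range (2 ^ f), (volume.restrict (Ico α (α + h))).real (E i ∩ E j)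
        ≤ ∑ j ∈ Finset.range (2 ^ f), 16 * h * δ * φ * (φ + g i j) :=
          Finset.sum_le_sum fun j hj => hgg i j hi (Finset.mem_range.1 hj)
      _ = 16 * h * δ * φ * (((2 ^ f : ℕ) : ℝ) * φ + ∑ j ∈ Finset.range (2 ^ f), g i j) := by
          rw [← Finset.mul_sum, Finset.sum_add_distrib, Finset.sum_const, Finset.card_range,
            nsmul_eq_mul]
      _ ≤ 16 * h * δ * φ * (1 + 17 / 8) := by
          rw [hLφ]
          gcongr
      _ = 50 * h * δ * φ := by ring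
  have hsq : ∑ i ∈ Finset.range (2 ^ f), ∑ j ∈ Finset.range (2 ^ f),
      (volume.restrict (Ico α (α + h))).real (E i ∩ E j) ≤ 50 * h * δ := by
    calc ∑ i ∈ Finset.range (2 ^ f), ∑ j ∈ Finset.range (2 ^ f),
        (volume.restrict (Ico α (α + h))).real (E i ∩ E j)
        ≤ ∑ i ∈ Finset.range (2 ^ f), 50 * h * δ * φ :=
          Finset.sum_le_sum fun i hi => hrow i (Finset.mem_range.1 hi)
      _ = 50 * h * δ * (((2 ^ f : ℕ) : ℝ) * φ) := by
          rw [Finset.sum_const, Finset.card_range, nsmul_eq_mul]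
          ring
      _ = 50 * h * δ := by rw [hLφ, mul_one]
  have hfirst : 3 / 32 * h * δ ≤ ∑ j ∈ Finset.range (2 ^ f),
      (volume.restrict (Ico α (α + h))).real (E j) := by
    calc 3 / 32 * h * δ = 3 / 32 * h * δ * (((2 ^ f : ℕ) : ℝ) * φ) := by rw [hLφ, mul_one]
      _ = ∑ j ∈ Finset.range (2 ^ f), h / 2 * (3 / 4 * φ * (δ / 4)) := by
          rw [Finset.sum_const, Finset.card_range, nsmul_eq_mul]
          ring
      _ ≤ _ := Finset.sum_le_sum fun j hj => hlow j (Finset.mem_range.1 hj)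
  have hmom := second_moment (volume.restrict (Ico α (α + h))) (2 ^ f) E hEm (3 / 1600)
  have hhit : h * δ / 6000 ≤ (volume.restrict (Ico α (α + h))).real
      (⋃ j ∈ Finset.range (2 ^ f), E j) := by
    have h1 : 2 * (3 / 1600 : ℝ) * (3 / 32 * h * δ) ≤ 2 * (3 / 1600 : ℝ) *
        ∑ j ∈ Finset.range (2 ^ f), (volume.restrict (Ico α (α + h))).real (E j) := by
      gcongr
    have h2 : (3 / 1600 : ℝ) ^ 2 * ∑ i ∈ Finset.range (2 ^ f), ∑ j ∈ Finset.range (2 ^ f),
        (volume.restrict (Ico α (α + h))).real (E i ∩ E j) ≤ (3 / 1600 : ℝ) ^ 2 * (50 * h * δ) := by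
      gcongr
    have h3 : 0 ≤ h * δ := by positivity
    have h4 : h * δ / 6000 ≤ 2 * (3 / 1600 : ℝ) * (3 / 32 * h * δ) -
        (3 / 1600 : ℝ) ^ 2 * (50 * h * δ) := by
      nlinarith
    linarith
  have hU : MeasurableSet (⋃ j ∈ Finset.range (2 ^ f), E j) :=
    Finset.measurableSet_biUnion _ fun j _ => hEm j
  have hcompl : (volume.restrict (Ico α (α + h))).real (⋃ j ∈ Finset.range (2 ^ f), E j)ᶜ ≤
      (1 - δ / 6000) * h := by
    rw [measureReal_compl hU]
    have h1 : (volume.restrict (Ico α (α + h))).real univ = h := by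
      rw [hEr _ MeasurableSet.univ, univ_inter, Real.volume_Ico, add_sub_cancel_left,
        ENNReal.toReal_ofReal hh0.le]
    rw [h1]
    linarith
  calc volume ({κ : ℝ | ∀ j, j < 2 ^ f → X + κ * w j ∉ Inr (Pat f q H) e} ∩ Ico α (α + h))
      ≤ volume ((⋃ j ∈ Finset.range (2 ^ f), E j)ᶜ ∩ Ico α (α + h)) := by
        refine measure_mono (inter_subset_inter_left _ ?_)
        intro κ hκ hκU
        obtain ⟨j, hj, hκj⟩ := mem_iUnion₂.1 hκU
        refine hκ j (Finset.mem_range.1 hj) (cen_subset hfq hm he ?_)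
        rw [hE] at hκj
        exact hκj
    _ = (volume.restrict (Ico α (α + h))) (⋃ j ∈ Finset.range (2 ^ f), E j)ᶜ := by
        rw [Measure.restrict_apply hU.compl]
    _ = ENNReal.ofReal ((volume.restrict (Ico α (α + h))).real
        (⋃ j ∈ Finset.range (2 ^ f), E j)ᶜ) := by
        rw [Measure.real, ENNReal.ofReal_toReal (measure_ne_top _ _)]
    _ ≤ _ := ENNReal.ofReal_le_ofReal hcompl

end Pool.Agent.Helper71.GD
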