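import Pool.Agent.Helper71.GD.Spread

/-!
# GD-06 Blocks: dense windows contain many separated blocks of `L` scales

`J ≤ 2 C |S ∩ [p - J, p)|`, `W = 20 C L`, `4 C (Nb (G + 5 + 3 W) + J0) ≤ J`. Consider the segments
`[p - J + i W, p - J + (i + 1) W)`, `i < n = (J - J0) / W`; a segment is rich if it contains at least
`5 L` elements. The number `g` of rich segments satisfies
`|S ∩ [p - J, p)| ≤ g W + 5 L n + J0 + W`, so `g ≥ Nb ((G + 5) / W + 2)`, and `spread` gives `Nb` rich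
segments with distances `≥ (G + 5) / W + 2` of the indices. `spread` with distance `5` gives `L`
elements of a rich segment.
-/

set_option autoImplicit false

namespace Pool.Agent.Helper71.GD

/-- elements of one segment -/
theorem pick {S : Set ℕ} {x W L : ℕ} (h : 5 * L ≤ cnt S x W) : ∃ μ : ℕ → ℕ,
    (∀ j < L, μ j ∈ S ∧ x ≤ μ j ∧ μ j < x + W) ∧ ∀ j, μ j + 5 ≤ μ (j + 1) := by
  obtain ⟨P, h1, h2, h3⟩ := spread (s := 5) (by norm_num) L x W (by rw [Nat.mul_comm]; exact h)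
  refine ⟨P, fun j hj => ⟨(h3 j hj).1, ?_, (h3 j hj).2⟩, h2⟩
  clear hj
  induction j with
  | zero => exact h1
  | succ j ih => exact ih.trans ((Nat.le_add_right _ _).trans (h2 j))

/-- counting by segments -/
theorem cnt_segments (S : Set ℕ) (x W L n : ℕ) :
    cnt S x (n * W) ≤ cnt {i | 5 * L ≤ cnt S (x + i * W) W} 0 n * W + n * (5 * L) := by
  induction n with
  | zero => simp [cnt_zero]
  | succ n ih =>
    have e1 : (n + 1) * W = n * W + W := by ring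
    have e2 : (n + 1) * (5 * L) = n * (5 * L) + 5 * L := by ring
    rw [e1, e2, cnt_add, cnt_add, zero_add]
    have h1 : cnt S (x + n * W) W ≤ cnt {i | 5 * L ≤ cnt S (x + i * W) W} n 1 * W + 5 * L := by
      by_cases h : n ∈ {i | 5 * L ≤ cnt S (x + i * W) W}
      · rw [cnt_succ_left _ _ _ h, cnt_zero]
        have := cnt_le S (x + n * W) W
        omega
      · have h2 : ¬ 5 * L ≤ cnt S (x + n * W) W := h
        omega
    have e3 : (cnt {i | 5 * L ≤ cnt S (x + i * W) W} 0 n +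
        cnt {i | 5 * L ≤ cnt S (x + i * W) W} n 1) * W =
        cnt {i | 5 * L ≤ cnt S (x + i * W) W} 0 n * W +
        cnt {i | 5 * L ≤ cnt S (x + i * W) W} n 1 * W := by ring
    rw [e3]
    omega

theorem blocks {S : Set ℕ} {p J J0 C L G Nb W : ℕ} (hC : 0 < C) (hL : 0 < L) (hJp : J ≤ p)
    (hW : W = 20 * C * L) (hcnt : J ≤ 2 * C * cnt S (p - J) J)
    (hJ : 4 * C * (Nb * (G + 5 + 3 * W) + J0) ≤ J) (hNb : 0 < Nb) :
    ∃ ν : ℕ → ℕ → ℕ, (∀ a < Nb, ∀ j < L, ν a j ∈ S ∧ p - J ≤ ν a j ∧ ν a j + J0 < p) ∧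
      (∀ a < Nb, ∀ j, j + 1 < L → ν a (j + 1) + 5 ≤ ν a j) ∧
      (∀ a < Nb, ν a 0 ≤ ν a (L - 1) + W) ∧
      ∀ a, a + 1 < Nb → ν (a + 1) 0 + G + 5 ≤ ν a (L - 1) := by
  have hW0 : 0 < W := by
    rw [hW]
    positivity
  obtain ⟨Q, hQ⟩ : ∃ Q : Set ℕ, Q = {i | 5 * L ≤ cnt S (p - J + i * W) W} := ⟨_, rfl⟩
  obtain ⟨n, hn⟩ : ∃ n, n = (J - J0) / W := ⟨_, rfl⟩
  have hX : Nb * (G + 5 + 3 * W) + J0 ≤ J := by
    refine le_trans ?_ hJ
    exact Nat.le_mul_of_pos_left _ (by positivity)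
  have hJ0 : J0 ≤ J := by omega
  have hn1 : n * W ≤ J - J0 := by
    rw [hn]
    exact Nat.div_mul_le_self _ _
  have hn2 : J - J0 < n * W + W := by
    rw [hn]
    have := Nat.lt_div_mul_add (a := J - J0) hW0
    exact this
  -- the number of rich segments
  have h1 := cnt_segments S (p - J) W L n
  rw [← hQ] at h1
  have h2 : cnt S (p - J) J ≤ cnt S (p - J) (n * W) + (J - n * W) :=
    cnt_le_sub_add S le_rfl (by omega)
  have h3 : cnt S (p - J) J ≤ cnt Q 0 n * W + n * (5 * L) + (J0 + W) := by omega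
  have h4 : 4 * C * (n * (5 * L)) ≤ J := by
    have e : 4 * C * (n * (5 * L)) = n * W := by
      rw [hW]
      ring
    rw [e]
    omega
  have h5 : 4 * C * (Nb * (G + 5 + 3 * W) + J0) ≤ 4 * C * (cnt Q 0 n * W + (J0 + W)) := by
    have h6 : 2 * J ≤ 4 * C * (cnt Q 0 n * W + n * (5 * L) + (J0 + W)) := by
      calc 2 * J ≤ 2 * (2 * C * cnt S (p - J) J) := by omega
        _ = 4 * C * cnt S (p - J) J := by ring
        _ ≤ _ := Nat.mul_le_mul_left _ h3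
    have e : 4 * C * (cnt Q 0 n * W + n * (5 * L) + (J0 + W)) =
        4 * C * (cnt Q 0 n * W + (J0 + W)) + 4 * C * (n * (5 * L)) := by ring
    omega
  have h6 : Nb * (G + 5 + 3 * W) + J0 ≤ cnt Q 0 n * W + (J0 + W) :=
    Nat.le_of_mul_le_mul_left h5 (by positivity)
  obtain ⟨s, hs⟩ : ∃ s, s = (G + 5) / W + 2 := ⟨_, rfl⟩
  have hsW : s * W ≤ G + 5 + 2 * W := by
    rw [hs, add_mul]
    have := Nat.div_mul_le_self (G + 5) W
    omega
  have hsW2 : G + 5 + W ≤ s * W := by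
    rw [hs, add_mul]
    have := Nat.lt_div_mul_add (a := G + 5) hW0
    omega
  have h7 : Nb * s ≤ cnt Q 0 n := by
    have h8 : Nb * s * W ≤ cnt Q 0 n * W := by
      have h9 : Nb * s * W ≤ Nb * (G + 5 + 2 * W) := by
        rw [mul_assoc]
        exact Nat.mul_le_mul_left _ hsW
      have h10 : Nb * (G + 5 + 3 * W) = Nb * (G + 5 + 2 * W) + Nb * W := by ring
      have h11 : W ≤ Nb * W := Nat.le_mul_of_pos_left _ hNb
      omega
    exact Nat.le_of_mul_le_mul_right h8 hW0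
  obtain ⟨P, -, hP2, hP3⟩ := spread (Q := Q) (s := s) (by rw [hs]; exact Nat.succ_pos _) Nb 0 n h7
  have hμ : ∀ i, ∃ μ : ℕ → ℕ, i ∈ Q → (∀ j < L, μ j ∈ S ∧ p - J + i * W ≤ μ j ∧
      μ j < p - J + i * W + W) ∧ ∀ j, μ j + 5 ≤ μ (j + 1) := by
    intro i
    by_cases hi : i ∈ Q
    · obtain ⟨μ, h8⟩ := pick (S := S) (x := p - J + i * W) (W := W) (L := L) (by
        rw [hQ] at hi
        exact hi)
      exact ⟨μ, fun _ => h8⟩
    · exact ⟨fun _ => 0, fun h => absurd h hi⟩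
  choose μ hμ using hμ
  refine ⟨fun a j => μ (P (Nb - 1 - a)) (L - 1 - j), ?_, ?_, ?_, ?_⟩
  · intro a ha j hj
    obtain ⟨h8, h9⟩ := hP3 (Nb - 1 - a) (by omega)
    obtain ⟨h10, h11, h12⟩ := (hμ _ h8).1 (L - 1 - j) (by omega)
    refine ⟨h10, by show p - J ≤ μ _ _; omega, ?_⟩
    show μ (P (Nb - 1 - a)) (L - 1 - j) + J0 < p
    have h13 : (P (Nb - 1 - a) + 1) * W ≤ n * W := Nat.mul_le_mul_right _ (by omega)
    have h14 : (P (Nb - 1 - a) + 1) * W = P (Nb - 1 - a) * W + W := by ring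
    omega
  · intro a ha j hj
    obtain ⟨h8, h9⟩ := hP3 (Nb - 1 - a) (by omega)
    have h10 := (hμ _ h8).2 (L - 1 - (j + 1))
    rw [show L - 1 - (j + 1) + 1 = L - 1 - j by omega] at h10
    exact h10
  · intro a ha
    obtain ⟨h8, h9⟩ := hP3 (Nb - 1 - a) (by omega)
    obtain ⟨h10, h11, h12⟩ := (hμ _ h8).1 (L - 1 - 0) (by omega)
    obtain ⟨h13, h14, h15⟩ := (hμ _ h8).1 (L - 1 - (L - 1)) (by omega)
    show μ (P (Nb - 1 - a)) (L - 1 - 0) ≤ μ (P (Nb - 1 - a)) (L - 1 - (L - 1)) + W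
    omega
  · intro a ha
    obtain ⟨h8, h9⟩ := hP3 (Nb - 1 - a) (by omega)
    obtain ⟨h8', h9'⟩ := hP3 (Nb - 1 - (a + 1)) (by omega)
    obtain ⟨h10, h11, h12⟩ := (hμ _ h8').1 (L - 1 - 0) (by omega)
    obtain ⟨h13, h14, h15⟩ := (hμ _ h8).1 (L - 1 - (L - 1)) (by omega)
    have h16 := hP2 (Nb - 1 - (a + 1))
    rw [show Nb - 1 - (a + 1) + 1 = Nb - 1 - a by omega] at h16
    have h17 : (P (Nb - 1 - (a + 1)) + s) * W ≤ P (Nb - 1 - a) * W := Nat.mul_le_mul_right _ h16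
    have h18 : (P (Nb - 1 - (a + 1)) + s) * W = P (Nb - 1 - (a + 1)) * W + s * W := by ring
    show μ (P (Nb - 1 - (a + 1))) (L - 1 - 0) + G + 5 ≤ μ (P (Nb - 1 - a)) (L - 1 - (L - 1))
    omega

end Pool.Agent.Helper71.GD
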