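import Pool.Agent.Helper71.GD.Defs

/-!
# GD-15 Colour: the scales and directions of one run

`v 0, …, v N` with `‖v 0‖ ≤ 1`, `‖v (i + 1)‖ ≤ ‖v i‖ / 2`, `‖v 0‖ ≤ 2 ^ (C N) ‖v N‖` have `N + 1`
different scales in a window of length `C N + 2`. They are coloured by the directions up to `ε`.
-/

set_option autoImplicit false

namespace Pool.Agent.Helper71.GD

open Pool.Agent.Helper69.GE

/-- increasing sequences and `cnt` -/
theorem le_cnt {S : Set ℕ} {sc : ℕ → ℕ} {L : ℕ} : ∀ N : ℕ, (∀ i < N, sc i + 1 ≤ sc (i + 1)) →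
    (∀ i ≤ N, sc i ∈ S) → sc N < sc 0 + L → N + 1 ≤ cnt S (sc 0) L := by
  intro N
  induction N generalizing L with
  | zero =>
    intro _ h2 h3
    obtain ⟨L', rfl⟩ : ∃ L', L = L' + 1 := ⟨L - 1, by omega⟩
    rw [cnt_succ_left S (sc 0) L' (h2 0 le_rfl)]
    omega
  | succ N ih =>
    intro h1 h2 h3
    have h4 := h1 N (by omega)
    have h5 := ih (L := sc N + 1 - sc 0) (fun i hi => h1 i (by omega)) (fun i hi => h2 i (by omega)) (by
      have : ∀ i ≤ N, sc 0 ≤ sc i := by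
        intro i
        induction i with
        | zero => intro _; exact le_rfl
        | succ i ihi =>
          intro hi
          have := ihi (by omega)
          have := h1 i (by omega)
          omega
      have := this N le_rfl
      omega)
    have h6 : ∀ i ≤ N, sc 0 ≤ sc i := by
      intro i
      induction i with
      | zero => intro _; exact le_rfl
      | succ i ihi =>
        intro hi
        have := ihi (by omega)
        have := h1 i (by omega)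
        omega
    have h7 := h6 N le_rfl
    have h8 : cnt S (sc 0) (sc N + 1 - sc 0) + 1 ≤ cnt S (sc 0) L := by
      have h9 : cnt S (sc 0) ((sc N + 1 - sc 0) + (L - (sc N + 1 - sc 0))) =
          cnt S (sc 0) (sc N + 1 - sc 0) +
            cnt S (sc 0 + (sc N + 1 - sc 0)) (L - (sc N + 1 - sc 0)) := cnt_add _ _ _ _
      rw [show (sc N + 1 - sc 0) + (L - (sc N + 1 - sc 0)) = L by omega] at h9
      rw [h9]
      have h10 : 1 ≤ cnt S (sc (N + 1)) 1 := by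
        rw [cnt_succ_left S (sc (N + 1)) 0 (h2 (N + 1) le_rfl)]
        omega
      have h11 : cnt S (sc (N + 1)) 1 ≤
          cnt S (sc 0 + (sc N + 1 - sc 0)) (L - (sc N + 1 - sc 0)) :=
        cnt_sub S (by omega) (by omega)
      omega
    omega

/-- one colour contains its share -/
theorem cnt_colour {q : ℕ} (T : Fin q → Set ℕ) (a l : ℕ) :
    cnt {n | ∃ c, n ∈ T c} a l ≤ ∑ c : Fin q, cnt (T c) a l := by
  classical
  unfold cnt
  rw [Finset.sum_comm]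
  refine Finset.sum_le_sum fun i _ => ?_
  split_ifs with h
  · obtain ⟨c, hc⟩ := h
    refine le_trans ?_ (Finset.single_le_sum (f := fun c => if a + i ∈ T c then 1 else 0)
      (fun _ _ => Nat.zero_le _) (Finset.mem_univ c))
    rw [if_pos hc]
  · exact Nat.zero_le _

theorem exists_colour {q : ℕ} {T : Fin q → Set ℕ} {a l : ℕ} (h : 0 < cnt {n | ∃ c, n ∈ T c} a l) :
    ∃ c, cnt {n | ∃ c, n ∈ T c} a l ≤ q * cnt (T c) a l := by
  by_contra hcon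
  push Not at hcon
  have h1 := cnt_colour T a l
  rcases Nat.eq_zero_or_pos q with hq | hq
  · subst hq
    rw [Finset.univ_eq_empty, Finset.sum_empty] at h1
    omega
  · have h2 : q * ∑ c : Fin q, cnt (T c) a l < q * cnt {n | ∃ c, n ∈ T c} a l := by
      rw [Finset.mul_sum]
      have : ∑ c : Fin q, q * cnt (T c) a l < ∑ _c : Fin q, cnt {n | ∃ c, n ∈ T c} a l :=
        Finset.sum_lt_sum_of_nonempty (by
          have : Nonempty (Fin q) := ⟨⟨0, hq⟩⟩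
          exact Finset.univ_nonempty) fun c _ => hcon c
      simpa using this
    have h3 : q * cnt {n | ∃ c, n ∈ T c} a l ≤ q * ∑ c : Fin q, cnt (T c) a l :=
      Nat.mul_le_mul_left _ h1
    omega

theorem run_colour {d : ℕ} {E : Set (Fin d → ℝ)} {p : Fin d → ℝ} {v : ℕ → Fin d → ℝ} {C N : ℕ}
    (hv0 : ‖v 0‖ ≤ 1) (hv : ∀ i ≤ N, v i ≠ 0 ∧ p + v i ∈ E)
    (hv2 : ∀ i < N, ‖v (i + 1)‖ ≤ ‖v i‖ / 2) (hvN : ‖v 0‖ ≤ 2 ^ (C * N) * ‖v N‖) {ε : ℝ}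
    (hε : 0 < ε) :
    ∃ (T : (Fin d → Fin (⌊2 / ε⌋₊ + 1)) → Set ℕ) (u : ℕ → Fin d → ℝ) (k : ℕ),
      N + 1 ≤ cnt {n | ∃ a, n ∈ T a} k (C * N + 2) ∧
      (∀ a, ∀ n ∈ T a, p + u n ∈ E ∧ (1 / 2 : ℝ) ^ (n + 1) < ‖u n‖ ∧ ‖u n‖ ≤ (1 / 2 : ℝ) ^ n) ∧
      ∀ a, ∀ n ∈ T a, ∀ n' ∈ T a, ‖(‖u n‖⁻¹) • u n - (‖u n'‖⁻¹) • u n'‖ ≤ ε := by
  classical
  have hhalf : (0 : ℝ) < 1 / 2 := by norm_num
  have hhalf1 : (1 / 2 : ℝ) < 1 := by norm_num
  have hle : ∀ i ≤ N, ‖v i‖ ≤ 1 := by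
    intro i
    induction i with
    | zero => intro _; exact hv0
    | succ i ih =>
      intro hi
      have h1 := ih (by omega)
      have h2 := hv2 i (by omega)
      have h3 := norm_nonneg (v i)
      linarith
  have hsc : ∀ i, ∃ n : ℕ, i ≤ N → (1 / 2 : ℝ) ^ (n + 1) < ‖v i‖ ∧ ‖v i‖ ≤ (1 / 2 : ℝ) ^ n := by
    intro i
    by_cases hi : i ≤ N
    · obtain ⟨n, hn⟩ := exists_nat_pow_near_of_lt_one (norm_pos_iff.mpr (hv i hi).1) (hle i hi)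
        hhalf hhalf1
      exact ⟨n, fun _ => hn⟩
    · exact ⟨0, fun h => absurd h hi⟩
  choose sc hsc using hsc
  have hstep : ∀ i < N, sc i + 1 ≤ sc (i + 1) := by
    intro i hi
    obtain ⟨a1, a2⟩ := hsc i hi.le
    obtain ⟨b1, b2⟩ := hsc (i + 1) hi
    have c2 := hv2 i hi
    have h1 : (1 / 2 : ℝ) ^ (sc (i + 1) + 1) < (1 / 2 : ℝ) ^ (sc i + 1) := by
      calc (1 / 2 : ℝ) ^ (sc (i + 1) + 1) < ‖v (i + 1)‖ := b1
        _ ≤ ‖v i‖ / 2 := c2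
        _ ≤ (1 / 2 : ℝ) ^ (sc i) / 2 := div_le_div_of_nonneg_right a2 (by norm_num)
        _ = (1 / 2 : ℝ) ^ (sc i + 1) := by
            rw [pow_succ]
            ring
    have h2 := (pow_lt_pow_iff_right_of_lt_one₀ hhalf hhalf1).mp h1
    omega
  have hlast : sc N < sc 0 + (C * N + 2) := by
    obtain ⟨a1, -⟩ := hsc 0 (Nat.zero_le _)
    obtain ⟨-, b2⟩ := hsc N le_rfl
    have h1 : (1 / 2 : ℝ) ^ (sc 0 + 1) < 2 ^ (C * N) * (1 / 2 : ℝ) ^ sc N :=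
      a1.trans_le (hvN.trans (mul_le_mul_of_nonneg_left b2 (by positivity)))
    have h2 : (1 / 2 : ℝ) ^ (sc 0 + 1 + C * N) < (1 / 2 : ℝ) ^ sc N := by
      calc (1 / 2 : ℝ) ^ (sc 0 + 1 + C * N) = (1 / 2 : ℝ) ^ (C * N) * (1 / 2 : ℝ) ^ (sc 0 + 1) := by
            rw [pow_add _ (sc 0 + 1)]
            ring
        _ < (1 / 2 : ℝ) ^ (C * N) * (2 ^ (C * N) * (1 / 2 : ℝ) ^ sc N) :=
            mul_lt_mul_of_pos_left h1 (by positivity)
        _ = (1 / 2 : ℝ) ^ sc N := by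
            rw [← mul_assoc, ← mul_pow]
            norm_num
    have h3 := (pow_lt_pow_iff_right_of_lt_one₀ hhalf hhalf1).mp h2
    omega
  have hu : ∀ n, ∃ i : ℕ, (∃ i ≤ N, (1 / 2 : ℝ) ^ (n + 1) < ‖v i‖ ∧ ‖v i‖ ≤ (1 / 2 : ℝ) ^ n) →
      i ≤ N ∧ (1 / 2 : ℝ) ^ (n + 1) < ‖v i‖ ∧ ‖v i‖ ≤ (1 / 2 : ℝ) ^ n := by
    intro n
    by_cases hex : ∃ i ≤ N, (1 / 2 : ℝ) ^ (n + 1) < ‖v i‖ ∧ ‖v i‖ ≤ (1 / 2 : ℝ) ^ n
    · obtain ⟨i, hi⟩ := hex
      exact ⟨i, fun _ => hi⟩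
    · exact ⟨0, fun h => absurd h hex⟩
  choose ix hix using hu
  obtain ⟨S, hSm⟩ : ∃ S : Set ℕ, ∀ n, n ∈ S ↔ ∃ i ≤ N, (1 / 2 : ℝ) ^ (n + 1) < ‖v i‖ ∧
      ‖v i‖ ≤ (1 / 2 : ℝ) ^ n := ⟨{n | _}, fun _ => Iff.rfl⟩
  obtain ⟨dir, hdir⟩ : ∃ dir : ℕ → Fin d → ℝ, ∀ n, dir n = ‖v (ix n)‖⁻¹ • v (ix n) :=
    ⟨fun n => ‖v (ix n)‖⁻¹ • v (ix n), fun _ => rfl⟩
  have hdn : ∀ n ∈ S, ‖dir n‖ = 1 := by
    intro n hn
    obtain ⟨h1, h2, -⟩ := hix n ((hSm n).mp hn)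
    have h3 : 0 < ‖v (ix n)‖ := lt_trans (by positivity) h2
    rw [hdir, norm_smul, norm_inv, norm_norm, inv_mul_cancel₀ h3.ne']
  have hdl : ∀ n ∈ S, ∀ l, -1 ≤ dir n l ∧ dir n l ≤ 1 := by
    intro n hn l
    have h1 := norm_le_pi_norm (dir n) l
    rw [hdn n hn, Real.norm_eq_abs, abs_le] at h1
    exact h1
  refine ⟨fun a => {n | n ∈ S ∧ ∀ l, ⌊(dir n l + 1) / ε⌋₊ = (a l : ℕ)}, fun n => v (ix n), sc 0,
    ?_, ?_, ?_⟩
  · refine (le_cnt (S := S) N hstep (fun i hi => (hSm _).mpr ⟨i, hi, hsc i hi⟩) hlast).trans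
      (cnt_mono (fun n hn => ?_) _ _)
    have h6 : ∀ l, ⌊(dir n l + 1) / ε⌋₊ < ⌊2 / ε⌋₊ + 1 := by
      intro l
      rw [Nat.lt_succ_iff]
      refine Nat.floor_le_floor ?_
      refine div_le_div_of_nonneg_right ?_ hε.le
      have := (hdl _ hn l).2
      linarith
    exact ⟨fun l => ⟨⌊(dir n l + 1) / ε⌋₊, h6 l⟩, hn, fun l => rfl⟩
  · intro a n hn
    obtain ⟨h1, h2, h3⟩ := hix n ((hSm n).mp hn.1)
    exact ⟨(hv _ h1).2, h2, h3⟩
  · intro a n hn n' hn'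
    obtain ⟨h1, e1⟩ := hn
    obtain ⟨h1', e2⟩ := hn'
    rw [← hdir n, ← hdir n', pi_norm_le_iff_of_nonneg hε.le]
    intro l
    rw [Pi.sub_apply, Real.norm_eq_abs]
    have e1 := e1 l
    have e2 := e2 l
    have p1 : 0 ≤ (dir n l + 1) / ε := by
      have := (hdl n h1 l).1
      exact div_nonneg (by linarith) hε.le
    have p2 : 0 ≤ (dir n' l + 1) / ε := by
      have := (hdl n' h1' l).1
      exact div_nonneg (by linarith) hε.le
    have q1 := Nat.floor_le p1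
    have q2 := Nat.lt_floor_add_one ((dir n l + 1) / ε)
    have q3 := Nat.floor_le p2
    have q4 := Nat.lt_floor_add_one ((dir n' l + 1) / ε)
    rw [e1] at q1 q2
    rw [e2] at q3 q4
    rw [le_div_iff₀ hε] at q1 q3
    rw [div_lt_iff₀ hε] at q2 q4
    rw [abs_le]
    constructor <;> linarith

end Pool.Agent.Helper71.GD
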