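import Pool.Agent.Helper69.GE.Defs

/-!
# GD-01 Defs: counting scales in windows

`cnt S a l` is the number of elements of `S` in `[a, a + l)`. `Reg S α ε l k B`: the window
`[k, k + B)` contains at least `α (1 - ε) B` elements, and every subwindow of length `l' ≥ l` at most
`α (1 + ε) l'`. `PD D C δ`: holes of density `δ` are sufficient for all regular windows of density at
least `1 / C`.
-/

set_option autoImplicit false

open MeasureTheory Set

namespace Pool.Agent.Helper71.GD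

open Pool.Agent.Helper69.GE

open Classical in
/-- The number of elements of `S` in `[a, a + l)`. -/
noncomputable def cnt (S : Set ℕ) (a l : ℕ) : ℕ := ∑ i ∈ Finset.range l, if a + i ∈ S then 1 else 0

/-- The window `[k, k + B)` is regular of density `α`. -/
structure Reg (S : Set ℕ) (α ε : ℝ) (l k B : ℕ) : Prop where
  low : α * (1 - ε) * B ≤ cnt S k B
  up : ∀ a l', l ≤ l' → k ≤ a → a + l' ≤ k + B → (cnt S a l' : ℝ) ≤ α * (1 + ε) * l'

/-- Holes of density `δ` are sufficient for regular windows of density at least `1 / C`. -/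
def PD (D C : ℕ) (δ : ℝ) : Prop :=
  ∀ R : ℝ, 1 ≤ R → ∃ ε : ℝ, 0 < ε ∧ ε ≤ 1 / 2 ∧ ∀ l : ℕ, ∃ m B : ℕ, l ≤ B ∧ 0 < B ∧
    ∀ α : ℝ, 1 ≤ C * α → ∀ (S : Set ℕ) (u : ℕ → Fin D → ℝ),
      (∀ n ∈ S, ∀ j, |u n j| ≤ (1 / 2 : ℝ) ^ n) → ∀ k : ℕ, Reg S α ε l k B →
        ∃ H : Set ℝ, Per H ∧ Cell m H ∧ volume (H ∩ Ico 0 1) ≤ ENNReal.ofReal δ ∧
          Kills S u R k B H ((1 / 2 : ℝ) ^ m)

theorem cnt_zero (S : Set ℕ) (a : ℕ) : cnt S a 0 = 0 := by
  unfold cnt
  simp

theorem cnt_succ_left (S : Set ℕ) (a l : ℕ) (h : a ∈ S) : cnt S a (l + 1) = 1 + cnt S (a + 1) l := by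
  unfold cnt
  rw [Finset.sum_range_succ', add_comm]
  simp only [add_zero, h, if_true]
  congr 1
  refine Finset.sum_congr rfl fun i _ => ?_
  rw [show a + (i + 1) = a + 1 + i by omega]

theorem cnt_succ_left' (S : Set ℕ) (a l : ℕ) (h : a ∉ S) : cnt S a (l + 1) = cnt S (a + 1) l := by
  unfold cnt
  rw [Finset.sum_range_succ', add_comm]
  simp only [add_zero, h, if_false, zero_add]
  refine Finset.sum_congr rfl fun i _ => ?_
  rw [show a + (i + 1) = a + 1 + i by omega]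

theorem cnt_add (S : Set ℕ) (a l l' : ℕ) : cnt S a (l + l') = cnt S a l + cnt S (a + l) l' := by
  unfold cnt
  rw [Finset.sum_range_add]
  congr 1
  refine Finset.sum_congr rfl fun i _ => ?_
  rw [add_assoc]

theorem cnt_le (S : Set ℕ) (a l : ℕ) : cnt S a l ≤ l := by
  unfold cnt
  refine (Finset.sum_le_card_nsmul _ _ 1 fun i _ => ?_).trans (by simp)
  split_ifs <;> simp

theorem cnt_sub (S : Set ℕ) {a l a' l' : ℕ} (h1 : a ≤ a') (h2 : a' + l' ≤ a + l) :
    cnt S a' l' ≤ cnt S a l := by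
  obtain ⟨d, rfl⟩ := Nat.exists_eq_add_of_le h1
  obtain ⟨e, rfl⟩ : ∃ e, l = d + l' + e := ⟨l - (d + l'), by omega⟩
  rw [cnt_add, cnt_add]
  omega

/-- what lies outside of a subwindow -/
theorem cnt_le_sub_add (S : Set ℕ) {a l a' l' : ℕ} (h1 : a ≤ a') (h2 : a' + l' ≤ a + l) :
    cnt S a l ≤ cnt S a' l' + (l - l') := by
  obtain ⟨d, rfl⟩ := Nat.exists_eq_add_of_le h1
  obtain ⟨e, rfl⟩ : ∃ e, l = d + l' + e := ⟨l - (d + l'), by omega⟩
  rw [cnt_add, cnt_add]
  have h3 := cnt_le S a d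
  have h4 := cnt_le S (a + (d + l')) e
  omega

theorem cnt_mono {S S' : Set ℕ} (h : ∀ n, n ∈ S → n ∈ S') (a l : ℕ) : cnt S a l ≤ cnt S' a l := by
  unfold cnt
  refine Finset.sum_le_sum fun i _ => ?_
  by_cases h1 : a + i ∈ S
  · simp [h1, h _ h1]
  · simp [h1]

theorem exists_of_cnt_pos {S : Set ℕ} {a l : ℕ} (h : 0 < cnt S a l) :
    ∃ n ∈ S, a ≤ n ∧ n < a + l := by
  by_contra hcon
  push Not at hcon
  have : cnt S a l = 0 := by
    unfold cnt
    refine Finset.sum_eq_zero fun i hi => ?_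
    rw [if_neg]
    intro hmem
    have := hcon _ hmem (by omega)
    have := Finset.mem_range.1 hi
    omega
  omega

theorem Reg.sub {S : Set ℕ} {α ε ε' : ℝ} {l l' k B k' B' : ℕ} (h : Reg S α ε l k B) (hα : 0 ≤ α)
    (hε : ε ≤ ε') (hl : l ≤ l') (h1 : k ≤ k') (h2 : k' + B' ≤ k + B)
    (hlow : α * (1 - ε') * B' ≤ cnt S k' B') : Reg S α ε' l' k' B' := by
  refine ⟨hlow, fun a l'' h3 h4 h5 => ?_⟩
  refine (h.up a l'' (hl.trans h3) (h1.trans h4) (h5.trans h2)).trans ?_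
  refine mul_le_mul_of_nonneg_right ?_ (Nat.cast_nonneg _)
  exact mul_le_mul_of_nonneg_left (by linarith) hα

end Pool.Agent.Helper71.GD
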