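import Pool.Agent.Helper71.GD.Defs

/-!
# GD-12 Regular: long dense windows contain regular windows

Density increment: if a window of density `α` has a long subwindow of density more than `α (1 + ε)`,
go on with the subwindow. This happens at most `T` times if `(1 + ε) ^ T > C`. Otherwise all long
subwindows have density at most `α (1 + ε)`, and by averaging some subwindow of the prescribed length
has density at least `α (1 - ε)`.
-/

set_option autoImplicit false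

namespace Pool.Agent.Helper71.GD

theorem cnt_blocks_le {S : Set ℕ} {k B : ℕ} {θ : ℝ} : ∀ n : ℕ,
    (∀ i < n, (cnt S (k + i * B) B : ℝ) ≤ θ) → (cnt S k (n * B) : ℝ) ≤ n * θ := by
  intro n
  induction n with
  | zero => intro _; simp [cnt_zero]
  | succ n ih =>
    intro h
    have h1 := ih fun i hi => h i (by omega)
    have h2 := h n (by omega)
    rw [add_mul, one_mul, cnt_add]
    push_cast
    linarith

/-- averaging -/
theorem exists_window {S : Set ℕ} {k L B C : ℕ} {α ε : ℝ} (hB : 0 < B) (hε : 0 < ε) (hε1 : ε ≤ 1)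
    (hα : 1 ≤ C * α) (hcnt : α * L ≤ cnt S k L) (hL : C * B / ε < L) :
    ∃ k', k ≤ k' ∧ k' + B ≤ k + L ∧ α * (1 - ε) * B ≤ cnt S k' B := by
  have hα0 : 0 < α := by
    by_contra hcon
    push Not at hcon
    have : (C : ℝ) * α ≤ 0 := mul_nonpos_of_nonneg_of_nonpos (Nat.cast_nonneg _) hcon
    linarith
  have hBr : (0 : ℝ) < B := by exact_mod_cast hB
  obtain ⟨n, hn⟩ : ∃ n, n = L / B := ⟨_, rfl⟩
  have hn1 : n * B ≤ L := by
    rw [hn]
    exact Nat.div_mul_le_self _ _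
  have hn2 : L < n * B + B := by
    rw [hn]
    exact Nat.lt_div_mul_add (a := L) hB
  by_contra hcon
  push Not at hcon
  have h1 : ∀ i < n, (cnt S (k + i * B) B : ℝ) ≤ α * (1 - ε) * B := by
    intro i hi
    have h2 : (i + 1) * B ≤ n * B := Nat.mul_le_mul_right _ (by omega)
    have h3 : (i + 1) * B = i * B + B := by ring
    exact (hcon (k + i * B) (by omega) (by omega)).le
  have h2 := cnt_blocks_le n h1
  have h3 : cnt S k L ≤ cnt S k (n * B) + (L - n * B) := cnt_le_sub_add S le_rfl (by omega)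
  have h4 : (cnt S k L : ℝ) ≤ cnt S k (n * B) + B := by
    have : cnt S k L ≤ cnt S k (n * B) + B := by omega
    exact_mod_cast this
  have h5 : (n : ℝ) * B ≤ L := by exact_mod_cast hn1
  have h6 : (n : ℝ) * (α * (1 - ε) * B) ≤ α * (1 - ε) * L := by
    have h7 : 0 ≤ α * (1 - ε) := mul_nonneg hα0.le (by linarith)
    calc (n : ℝ) * (α * (1 - ε) * B) = α * (1 - ε) * (n * B) := by ring
      _ ≤ _ := mul_le_mul_of_nonneg_left h5 h7
  have h8 : α * ε * L ≤ B := by nlinarith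
  rw [div_lt_iff₀ hε] at hL
  have h9 : (B : ℝ) ≤ α * (C * B) := by nlinarith
  have h10 : α * (C * B) < α * (L * ε) := mul_lt_mul_of_pos_left hL hα0
  nlinarith

theorem reg_exists {C : ℕ} {ε : ℝ} (hε : 0 < ε) (hε1 : ε ≤ 1) (Bf : ℕ → ℕ)
    (hBf : ∀ l, 0 < Bf l) : ∀ T : ℕ, ∃ N : ℕ, 0 < N ∧ ∀ (S : Set ℕ) (k L : ℕ) (α : ℝ), N ≤ L →
      1 ≤ C * α → α * L ≤ cnt S k L → 1 < α * (1 + ε) ^ T →
      ∃ (α' : ℝ) (l k' : ℕ), 1 ≤ C * α' ∧ Reg S α' ε l k' (Bf l) ∧ k ≤ k' ∧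
        k' + Bf l ≤ k + L := by
  intro T
  induction T with
  | zero =>
    refine ⟨1, one_pos, fun S k L α hL hα hcnt h => ?_⟩
    exfalso
    rw [pow_zero, mul_one] at h
    have h1 : (cnt S k L : ℝ) ≤ L := by exact_mod_cast cnt_le S k L
    have h2 : (1 : ℝ) ≤ L := by exact_mod_cast hL
    nlinarith
  | succ T ih =>
    obtain ⟨l, hl, ih⟩ := ih
    refine ⟨⌈C * Bf l / ε⌉₊ + 1, by omega, fun S k L α hL hα hcnt h => ?_⟩
    have hα0 : 0 < α := by
      by_contra hcon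
      push Not at hcon
      have : (C : ℝ) * α ≤ 0 := mul_nonpos_of_nonneg_of_nonpos (Nat.cast_nonneg _) hcon
      linarith
    by_cases hc : ∃ a l', l ≤ l' ∧ k ≤ a ∧ a + l' ≤ k + L ∧ α * (1 + ε) * l' < cnt S a l'
    · obtain ⟨a, l', h1, h2, h3, h4⟩ := hc
      obtain ⟨α', l'', k', g1, g2, g3, g4⟩ := ih S a l' (α * (1 + ε)) h1 (by
        have : (C : ℝ) * α ≤ C * (α * (1 + ε)) := by
          refine mul_le_mul_of_nonneg_left ?_ (Nat.cast_nonneg _)
          nlinarith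
        linarith) h4.le (by
          rw [pow_succ] at h
          calc 1 < α * ((1 + ε) ^ T * (1 + ε)) := h
            _ = α * (1 + ε) * (1 + ε) ^ T := by ring)
      exact ⟨α', l'', k', g1, g2, by omega, by omega⟩
    · push Not at hc
      obtain ⟨k', h1, h2, h3⟩ := exists_window (hBf l) hε hε1 hα hcnt (by
        have h4 := Nat.le_ceil ((C : ℝ) * Bf l / ε)
        have h5 : ((⌈(C : ℝ) * Bf l / ε⌉₊ + 1 : ℕ) : ℝ) ≤ L := by exact_mod_cast hL
        push_cast at h5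
        linarith)
      refine ⟨α, l, k', hα, ⟨h3, fun a l' g1 g2 g3 => ?_⟩, h1, h2⟩
      exact hc a l' g1 (by omega) (by omega)

theorem regular {C : ℕ} (hC : 0 < C) {ε : ℝ} (hε : 0 < ε) (hε1 : ε ≤ 1) (Bf : ℕ → ℕ)
    (hBf : ∀ l, 0 < Bf l) : ∃ N : ℕ, ∀ (S : Set ℕ) (k L : ℕ), N ≤ L → L ≤ C * cnt S k L →
      ∃ (α : ℝ) (l k' : ℕ), 1 ≤ C * α ∧ Reg S α ε l k' (Bf l) ∧ k ≤ k' ∧ k' + Bf l ≤ k + L := by
  have hCr : (0 : ℝ) < C := by exact_mod_cast hC
  obtain ⟨T, hT⟩ := pow_unbounded_of_one_lt (C : ℝ) (show 1 < 1 + ε by linarith)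
  obtain ⟨N, -, hN⟩ := reg_exists (C := C) hε hε1 Bf hBf T
  refine ⟨N, fun S k L hL hcnt => hN S k L (1 / C) hL ?_ ?_ ?_⟩
  · rw [mul_one_div_cancel hCr.ne']
  · have h1 : (L : ℝ) ≤ C * cnt S k L := by exact_mod_cast hcnt
    rw [one_div, inv_mul_le_iff₀ hCr]
    exact h1
  · rw [one_div, inv_mul_eq_div, lt_div_iff₀ hCr, one_mul]
    exact hT

end Pool.Agent.Helper71.GD
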