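import Pool.Agent.Helper71.GD.AllP
import Pool.Agent.Helper71.GD.Regular

/-!
# GD-14 Kill: killers in long dense windows, and one length function
-/

set_option autoImplicit false

open MeasureTheory Set

namespace Pool.Agent.Helper71.GD

open Pool.Agent.Helper69.GE

/-- Every window of length at least `N` and density at least `1 / C` has a killer of density `δ`. -/
def DK (D C : ℕ) (δ R : ℝ) (N : ℕ) : Prop :=
  ∀ (S : Set ℕ) (u : ℕ → Fin D → ℝ), (∀ n ∈ S, ∀ j, |u n j| ≤ (1 / 2 : ℝ) ^ n) →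
    ∀ k L : ℕ, N ≤ L → L ≤ C * cnt S k L → ∃ (k' B m : ℕ) (H : Set ℝ), Per H ∧ Cell m H ∧
      volume (H ∩ Ico 0 1) ≤ ENNReal.ofReal δ ∧ Kills S u R k' B H ((1 / 2 : ℝ) ^ m)

theorem exists_DK (D C : ℕ) (hC : 0 < C) {δ R : ℝ} (hδ : 0 < δ) (hR : 1 ≤ R) :
    ∃ N, DK D C δ R N := by
  obtain ⟨ε, hε, hε2, h⟩ := all_pd D C hC δ hδ R hR
  choose m B hB1 hB2 hB3 using h
  obtain ⟨N, hN⟩ := regular hC hε (by linarith) B hB2
  refine ⟨N, fun S u hu k L hL hcnt => ?_⟩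
  obtain ⟨α, l, k', h1, h2, -, -⟩ := hN S k L hL hcnt
  obtain ⟨H, h3, h4, h5, h6⟩ := hB3 l α h1 S u hu k' h2
  exact ⟨k', B l, m l, H, h3, h4, h5, h6⟩

theorem kills_mono {D : ℕ} {S : Set ℕ} {u : ℕ → Fin D → ℝ} {R R' : ℝ} {k B : ℕ} {H : Set ℝ} {e : ℝ}
    (h0 : 0 < R') (h : R' ≤ R) (hk : Kills S u R k B H e) : Kills S u R' k B H e := by
  intro x r hr
  refine hk x r ?_
  obtain ⟨ρ, h1, h2, h3⟩ := hr.cmp
  exact ⟨fun j => (hr.bd j).trans h, ρ, (inv_anti₀ h0 h).trans h1, h2.trans h, h3⟩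

/-- One length function for all dimensions, forms and densities. -/
theorem exists_F : ∃ F : ℕ → ℕ, ∀ C D : ℕ, D ≤ C →
    DK D ((C + 2) * (C + 1)) (1 / ((C : ℝ) + 1)) ((C : ℝ) + 1) (F C) := by
  have h : ∀ C D : ℕ, ∃ N, DK D ((C + 2) * (C + 1)) (1 / ((C : ℝ) + 1)) ((C : ℝ) + 1) N :=
    fun C D => exists_DK D _ (by positivity) (by positivity)
      (by linarith [Nat.cast_nonneg (α := ℝ) C])
  choose g hg using h
  refine ⟨fun C => (Finset.range (C + 1)).sup (g C), fun C D hD S u hu k L hL hcnt => ?_⟩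
  exact hg C D S u hu k L
    ((Finset.le_sup (f := g C) (Finset.mem_range.2 (by omega))).trans hL) hcnt

end Pool.Agent.Helper71.GD
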