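import Pool.Agent.Helper71.GD.Kill
import Pool.Agent.Helper71.GD.Hole
import Pool.Agent.Helper71.GD.Colour
import Pool.Agent.Helper69.GE.CompactK

/-!
# GD-16 Main: sets whose scales are dense in long windows

`main`: the function `h`. A run `v 0, …, v N`, `‖v (i + 1)‖ ≤ ‖v i‖ / 2`, `‖v 0‖ ≤ 2 ^ (C N) ‖v N‖`,
`N ≥ F C`, has `N + 1` scales in a window of length `C N + 2 ≤ (C + 2) (N + 1)`; one of the at most
`C + 1` directions has density at least `1 / ((C + 2) (C + 1))`.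
-/

set_option autoImplicit false

open MeasureTheory Set Filter

namespace Pool.Agent.Helper71.GD

open Pool.Agent.Helper69.GE

theorem main_short : ∃ F : ℕ → ℕ, ∀ (d : ℕ) (E : Set (Fin d → ℝ)),
    (∀ C₀ : ℕ, ∃ C : ℕ, C₀ ≤ C ∧ ∃ N : ℕ, F C ≤ N ∧ ∃ (p : Fin d → ℝ) (v : ℕ → Fin d → ℝ),
      ‖v 0‖ ≤ 1 ∧ (∀ i ≤ N, v i ≠ 0 ∧ p + v i ∈ E) ∧ (∀ i < N, ‖v (i + 1)‖ ≤ ‖v i‖ / 2) ∧
        ‖v 0‖ ≤ 2 ^ (C * N) * ‖v N‖) →
    ∀ η : ℝ, 0 < η → ∃ K : Set (Fin d → ℝ), K ⊆ Icc 0 1 ∧ IsCompact K ∧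
      volume (Icc (0 : Fin d → ℝ) 1 \ K) ≤ ENNReal.ofReal η ∧
      ∀ (T : (Fin d → ℝ) ≃ₗ[ℝ] (Fin d → ℝ)) (t : Fin d → ℝ), ∃ v ∈ E, t + T v ∉ K := by
  obtain ⟨F, hF⟩ := exists_F
  refine ⟨F, fun d E hE η hη => ?_⟩
  refine compactK (fun n δ hδ => ?_) hη
  set A : ℝ := n + 1 with hAdef
  have hA : 1 ≤ A := by
    have : (0 : ℝ) ≤ n := Nat.cast_nonneg n
    linarith
  have hA0 : 0 < A := by linarith
  set ε : ℝ := 1 / (3 * A * (d * A + 1)) with hεdef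
  have hdA : 0 < (d : ℝ) * A + 1 := by positivity
  have hε : 0 < ε := by positivity
  have hε2 : d * A * ε ≤ 1 / (3 * A) := by
    rw [hεdef, mul_one_div, div_le_div_iff₀ (by positivity) (by positivity)]
    nlinarith [mul_nonneg (Nat.cast_nonneg (α := ℝ) d) hA0.le]
  obtain ⟨q, hq⟩ : ∃ q, q = Fintype.card (Fin d → Fin (⌊2 / ε⌋₊ + 1)) := ⟨_, rfl⟩
  obtain ⟨C, hC, N, hN, p, v, hv0, hv, hv2, hvN⟩ :=
    hE (max (max d q) (max ⌈3 * A * (d + 1)⌉₊ ⌈2 / δ⌉₊))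
  have hC1 : d ≤ C := ((le_max_left _ _).trans (le_max_left _ _)).trans hC
  have hC2 : q ≤ C := ((le_max_right _ _).trans (le_max_left _ _)).trans hC
  have hC3 : 3 * A * (d + 1) ≤ C :=
    (Nat.le_ceil _).trans (Nat.cast_le.2 (((le_max_left _ _).trans (le_max_right _ _)).trans hC))
  have hC4 : 2 / δ ≤ C :=
    (Nat.le_ceil _).trans (Nat.cast_le.2 (((le_max_right _ _).trans (le_max_right _ _)).trans hC))
  obtain ⟨T, u, k, hb, hT, hdir⟩ := run_colour hv0 hv hv2 hvN hε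
  have e : (Fin d → Fin (⌊2 / ε⌋₊ + 1)) ≃ Fin q := hq ▸ Fintype.equivFin _
  have hb2 : N + 1 ≤ cnt {n | ∃ c : Fin q, n ∈ T (e.symm c)} k (C * N + 2) := by
    refine hb.trans (cnt_mono (fun m hm => ?_) _ _)
    obtain ⟨a, ha⟩ := hm
    exact ⟨e a, by simpa using ha⟩
  obtain ⟨c, hc⟩ := exists_colour (T := fun c => T (e.symm c)) (a := k) (l := C * N + 2)
    (lt_of_lt_of_le (Nat.succ_pos N) hb2)
  have hC0 : 1 ≤ C := by
    by_contra hcon
    have h1 : C = 0 := by omega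
    rw [h1] at hC3
    push_cast at hC3
    nlinarith [Nat.cast_nonneg (α := ℝ) d]
  have hdens : C * N + 2 ≤ (C + 2) * (C + 1) * cnt (T (e.symm c)) k (C * N + 2) := by
    have h1 : N + 1 ≤ q * cnt (T (e.symm c)) k (C * N + 2) := hb2.trans hc
    have h2 : q * cnt (T (e.symm c)) k (C * N + 2) ≤
        (C + 1) * cnt (T (e.symm c)) k (C * N + 2) := Nat.mul_le_mul_right _ (by omega)
    calc C * N + 2 ≤ (C + 2) * (N + 1) := by ring_nf; omega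
      _ ≤ (C + 2) * ((C + 1) * cnt (T (e.symm c)) k (C * N + 2)) :=
          Nat.mul_le_mul_left _ (h1.trans h2)
      _ = _ := by ring
  have hlen : F C ≤ C * N + 2 := by
    have : N ≤ C * N := Nat.le_mul_of_pos_left _ hC0
    omega
  obtain ⟨k', B, m, H, hH1, hH2, hH3, hH4⟩ := hF C d hC1 (T (e.symm c)) u
    (fun m hm j => (norm_le_pi_norm (u m) j).trans (hT _ m hm).2.2) k (C * N + 2) hlen hdens
  have hpos : 0 < cnt (T (e.symm c)) k (C * N + 2) := by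
    by_contra hcon
    have h1 : cnt (T (e.symm c)) k (C * N + 2) = 0 := by omega
    rw [h1] at hdens
    omega
  obtain ⟨n₀, hn₀, -, -⟩ := exists_of_cnt_pos hpos
  have hδ' : 1 / ((C : ℝ) + 1) ≤ δ / 2 := by
    rw [div_le_div_iff₀ (by positivity) (by norm_num)]
    have h1 : 2 / δ ≤ (C : ℝ) + 1 := by linarith
    rw [div_le_iff₀ hδ] at h1
    linarith
  have hd0 : (0 : ℝ) ≤ d := Nat.cast_nonneg d
  have hun : 0 < ‖u n₀‖ := lt_trans (by positivity) (hT _ n₀ hn₀).2.1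
  have hw : ‖(‖u n₀‖⁻¹) • u n₀‖ = 1 := by
    rw [norm_smul, norm_inv, norm_norm, inv_mul_cancel₀ hun.ne']
  obtain ⟨U, hUo, hUv, hUk⟩ := hole (E := E) (p := p) hδ hH1 hH2
    (hH3.trans (ENNReal.ofReal_le_ofReal hδ')) (kills_mono (by positivity) (by linarith) hH4)
    hw hA hε2
    (fun m hm => ⟨(hT _ m hm).1, (hT _ m hm).2.1, (hT _ m hm).2.2, hdir _ m hm n₀ hn₀⟩)
  exact ⟨U, p, (‖u n₀‖⁻¹) • u n₀, hUo, hUv, hw, hUk⟩

/-- The first vector of a run need not be short. -/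
theorem main_F : ∃ F : ℕ → ℕ, ∀ (d : ℕ) (E : Set (Fin d → ℝ)),
    (∀ C₀ : ℕ, ∃ C : ℕ, C₀ ≤ C ∧ ∃ N : ℕ, F C ≤ N ∧ ∃ (p : Fin d → ℝ) (v : ℕ → Fin d → ℝ),
      (∀ i ≤ N, v i ≠ 0 ∧ p + v i ∈ E) ∧ (∀ i < N, ‖v (i + 1)‖ ≤ ‖v i‖ / 2) ∧
        ‖v 0‖ ≤ 2 ^ (C * N) * ‖v N‖) →
    ∀ η : ℝ, 0 < η → ∃ K : Set (Fin d → ℝ), K ⊆ Icc 0 1 ∧ IsCompact K ∧
      volume (Icc (0 : Fin d → ℝ) 1 \ K) ≤ ENNReal.ofReal η ∧
      ∀ (t : Fin d → ℝ) (T : (Fin d → ℝ) ≃ₗ[ℝ] (Fin d → ℝ)), ∃ v ∈ E, t + T v ∉ K := by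
  obtain ⟨F, hF⟩ := main_short
  refine ⟨fun C => F C + 1, fun d E hE η hη => ?_⟩
  by_cases hb : Bornology.IsBounded E
  · obtain ⟨R, hR0, hR⟩ := hb.exists_pos_norm_le
    have hs : (0 : ℝ) < (4 * R)⁻¹ := by positivity
    obtain ⟨K, hK, hKc, hKv, hKE⟩ := hF d ((fun x => (4 * R)⁻¹ • x) '' E) (by
      intro C₀
      obtain ⟨C, hC, N, hN, p, v, hv, hv2, hvN⟩ := hE C₀
      simp only at hN
      refine ⟨C, hC, N, by omega, (4 * R)⁻¹ • p, fun i => (4 * R)⁻¹ • v i, ?_, ?_, ?_, ?_⟩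
      · have h0 := hv 0 (Nat.zero_le _)
        have h1 := hv 1 (by omega)
        have h2 := hv2 0 (by omega)
        simp only [zero_add] at h2
        have h3 : ‖v 0 - v 1‖ ≤ 2 * R := by
          have e : v 0 - v 1 = (p + v 0) - (p + v 1) := by abel
          rw [e]
          calc _ ≤ ‖p + v 0‖ + ‖p + v 1‖ := norm_sub_le _ _
            _ ≤ R + R := add_le_add (hR _ h0.2) (hR _ h1.2)
            _ = 2 * R := by ring
        have h4 : ‖v 0‖ - ‖v 1‖ ≤ ‖v 0 - v 1‖ := norm_sub_norm_le _ _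
        have h5 : ‖v 0‖ ≤ 4 * R := by linarith
        show ‖(4 * R)⁻¹ • v 0‖ ≤ 1
        rw [norm_smul, Real.norm_eq_abs, abs_of_pos hs, inv_mul_le_iff₀ (by positivity)]
        linarith
      · intro i hi
        obtain ⟨a, b⟩ := hv i hi
        exact ⟨smul_ne_zero hs.ne' a, ⟨p + v i, b, by simp [smul_add]⟩⟩
      · intro i hi
        simp only [norm_smul, Real.norm_eq_abs, abs_of_pos hs]
        calc (4 * R)⁻¹ * ‖v (i + 1)‖ ≤ (4 * R)⁻¹ * (‖v i‖ / 2) :=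
              mul_le_mul_of_nonneg_left (hv2 i hi) hs.le
          _ = _ := by ring
      · simp only [norm_smul, Real.norm_eq_abs, abs_of_pos hs]
        calc (4 * R)⁻¹ * ‖v 0‖ ≤ (4 * R)⁻¹ * (2 ^ (C * N) * ‖v N‖) :=
              mul_le_mul_of_nonneg_left hvN hs.le
          _ = _ := by ring) η hη
    refine ⟨K, hK, hKc, hKv, fun t T => ?_⟩
    obtain ⟨w, ⟨v, hv, rfl⟩, hw⟩ := hKE
      ((LinearEquiv.smulOfNeZero ℝ (Fin d → ℝ) (4 * R) (by positivity)).trans T) t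
    refine ⟨v, hv, ?_⟩
    have hs : 4 * R ≠ 0 := by positivity
    have e : ((LinearEquiv.smulOfNeZero ℝ (Fin d → ℝ) (4 * R) (by positivity)).trans T)
        ((4 * R)⁻¹ • v) = T v := by
      show T ((4 * R) • (4 * R)⁻¹ • v) = T v
      rw [smul_smul, mul_inv_cancel₀ hs, one_smul]
    rw [← e]
    exact hw
  · refine ⟨Icc 0 1, subset_rfl, isCompact_Icc, by simp, fun t T => ?_⟩
    by_contra hcon
    push Not at hcon
    apply hb
    have h1 : E ⊆ T.symm '' ((fun x => -t + x) '' Icc (0 : Fin d → ℝ) 1) := by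
      intro v hv
      exact ⟨T v, ⟨t + T v, hcon v hv, by simp⟩, by simp⟩
    have h2 : IsCompact (T.symm '' ((fun x => -t + x) '' Icc (0 : Fin d → ℝ) 1)) := by
      refine IsCompact.image (IsCompact.image isCompact_Icc (by fun_prop)) ?_
      exact T.symm.toLinearMap.continuous_of_finiteDimensional
    exact h2.isBounded.subset h1

/-- There is a function `h` tending to infinity such that sets which for infinitely many `N` contain
`N + 1` points on different scales within `h N * N` scales are avoided by large compact sets. -/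
theorem main : ∃ h : ℕ → ℕ, Tendsto h atTop atTop ∧ ∀ (d : ℕ) (E : Set (Fin d → ℝ)),
    (∃ᶠ N in atTop, ∃ (p : Fin d → ℝ) (v : ℕ → Fin d → ℝ), (∀ i ≤ N, v i ≠ 0 ∧ p + v i ∈ E) ∧
      (∀ i < N, ‖v (i + 1)‖ ≤ ‖v i‖ / 2) ∧ ‖v 0‖ ≤ 2 ^ (h N * N) * ‖v N‖) →
    ∀ η : ℝ, 0 < η → ∃ K : Set (Fin d → ℝ), K ⊆ Icc 0 1 ∧ IsCompact K ∧
      volume (Icc (0 : Fin d → ℝ) 1 \ K) ≤ ENNReal.ofReal η ∧
      ∀ (t : Fin d → ℝ) (T : (Fin d → ℝ) ≃ₗ[ℝ] (Fin d → ℝ)), ∃ v ∈ E, t + T v ∉ K := by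
  classical
  obtain ⟨F, hF⟩ := main_F
  have hge : ∀ c N : ℕ, max c (F c) ≤ N → c ≤ Nat.findGreatest (fun C => F C ≤ N) N := by
    intro c N h
    exact Nat.le_findGreatest ((le_max_left _ _).trans h) ((le_max_right _ _).trans h)
  refine ⟨fun N => Nat.findGreatest (fun C => F C ≤ N) N, ?_, fun d E hE => hF d E fun C₀ => ?_⟩
  · rw [tendsto_atTop]
    intro c
    filter_upwards [eventually_ge_atTop (max c (F c))] with N hN
    exact hge c N hN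
  · obtain ⟨N, ⟨p, v, h1, h2, h3⟩, hN⟩ :=
      (hE.and_eventually (eventually_ge_atTop (max (C₀ + 1) (F (C₀ + 1))))).exists
    have h4 := hge (C₀ + 1) N hN
    refine ⟨Nat.findGreatest (fun C => F C ≤ N) N, by omega, N, ?_, p, v, h1, h2, h3⟩
    exact Nat.findGreatest_of_ne_zero (P := fun C => F C ≤ N) rfl (by omega)

end Pool.Agent.Helper71.GD
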