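import Mathlib

/-!
# GD-07 Params: the choice of the numbers

As `GE.params`, with `W = 20 C L`, `q = W + f + 5`, `G = q + m + 5`,
`J = 4 C (Nb (G + 5 + 3 W) + J0)`, `G + 5 + 3 W ≤ (80 C + 2) L`,
`lam = 12000 (D + 1) (4 C (80 C + 2)) + 1`; moreover `l ≤ J`.
-/

set_option autoImplicit false

namespace Pool.Agent.Helper71.GD

private theorem two_pow_ge_aux : ∀ n : ℕ, 5 ≤ n → n + 15 ≤ 2 ^ n := by
  intro n hn
  induction n, hn using Nat.le_induction with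
  | base => norm_num
  | succ k hk ih =>
    rw [pow_succ]
    omega

private theorem exp_neg_two_le_aux {x : ℝ} (h0 : 0 ≤ x) (h1 : x ≤ 1 / 2) :
    Real.exp (-(2 * x)) ≤ 1 - x := by
  have h2 : 2 * x + 1 ≤ Real.exp (2 * x) := Real.add_one_le_exp _
  have h3 : 1 ≤ (1 - x) * Real.exp (2 * x) := by
    have h4 : (1 - x) * (2 * x + 1) ≤ (1 - x) * Real.exp (2 * x) :=
      mul_le_mul_of_nonneg_left h2 (by linarith)
    nlinarith
  rw [Real.exp_neg, inv_le_iff_one_le_mul₀ (Real.exp_pos _)]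
  exact h3

private theorem beta_aux {D W M : ℕ} {δ : ℝ} (hδ1 : δ ≤ 1)
    (h : (D : ℝ) * W < M * (δ / 6000)) : ((2 : ℝ) ^ W) ^ D * (1 - δ / 6000) ^ M < 1 := by
  have h2 : (2 : ℝ) ≤ Real.exp 1 := by
    have := Real.add_one_le_exp 1
    linarith
  have h3 : ((2 : ℝ) ^ W) ^ D ≤ Real.exp ((D : ℝ) * W) := by
    have h4 : (2 : ℝ) ^ W ≤ Real.exp W := by
      have h5 : (2 : ℝ) ^ W ≤ Real.exp 1 ^ W := pow_le_pow_left₀ (by norm_num) h2 W
      rw [← Real.exp_nat_mul, mul_one] at h5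
      exact h5
    have h6 : ((2 : ℝ) ^ W) ^ D ≤ Real.exp W ^ D := pow_le_pow_left₀ (by positivity) h4 D
    rw [← Real.exp_nat_mul] at h6
    exact h6
  have hx0 : 0 ≤ 1 - δ / 6000 := by linarith
  have h7 : (1 - δ / 6000) ^ M ≤ Real.exp (-(M * (δ / 6000))) := by
    have h8 : 1 - δ / 6000 ≤ Real.exp (-(δ / 6000)) := Real.one_sub_le_exp_neg _
    have h9 : (1 - δ / 6000) ^ M ≤ Real.exp (-(δ / 6000)) ^ M := pow_le_pow_left₀ hx0 h8 M
    rw [← Real.exp_nat_mul, mul_neg] at h9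
    exact h9
  have h10 : ((2 : ℝ) ^ W) ^ D * (1 - δ / 6000) ^ M ≤
      Real.exp ((D : ℝ) * W) * Real.exp (-(M * (δ / 6000))) :=
    mul_le_mul h3 h7 (pow_nonneg hx0 M) (Real.exp_pos _).le
  rw [← Real.exp_add] at h10
  refine lt_of_le_of_lt h10 (Real.exp_lt_one_iff.mpr ?_)
  linarith

theorem params (D C : ℕ) (hC : 0 < C) : ∃ lam : ℝ, 0 < lam ∧ ∀ δ : ℝ, 0 < δ → δ ≤ 1 →
    ∀ R : ℝ, 1 ≤ R → ∀ m l : ℕ, ∃ f q G Nb M J0 J Z W : ℕ,
      1 ≤ f ∧ W = 20 * C * 2 ^ f ∧ W + f + 4 ≤ q ∧ q + m + 5 ≤ G ∧ 0 < Nb ∧ 0 < M ∧ R ≤ 2 ^ J0 ∧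
      4 * C * (Nb * (G + 5 + 3 * W) + J0) ≤ J ∧ l ≤ J ∧
      (8 * R * (D + 1) * 2 ^ J / (1 / 2 : ℝ) ^ (q + m + 5)) ^ D *
        ((1 / (1 / 2 : ℝ) ^ (q + m + 5) + 1) * (1 - δ / 6000) ^ Nb) ^ M < 1 ∧
      3 * M * ((16 * R + 8) / 2 ^ q) ≤ Real.exp (-2 * lam / δ) / 4 ∧
      Real.exp (-2 * lam / δ) ≤ (1 - (1 / 2 : ℝ) ^ f) ^ M ∧
      (32 * R + 1) / 2 ^ Z ≤ δ * Real.exp (-2 * lam / δ) / 4 := by
  obtain ⟨lam, hlam⟩ : ∃ lam : ℝ, lam = 12000 * (D + 1) * (4 * C) * (80 * C + 2) + 1 := ⟨_, rfl⟩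
  have hC0 : (0 : ℝ) < C := by exact_mod_cast hC
  have hlam0 : 0 < lam - 1 := by
    rw [hlam, add_sub_cancel_right]
    positivity
  refine ⟨lam, by linarith, ?_⟩
  intro δ hδ hδ1 R hR m l
  obtain ⟨ε, hε⟩ : ∃ ε : ℝ, ε = Real.exp (-2 * lam / δ) := ⟨_, rfl⟩
  have hε0 : 0 < ε := by
    rw [hε]
    exact Real.exp_pos _
  rw [← hε]
  obtain ⟨f0, hf0⟩ := exists_nat_ge (3 * (lam / δ) * (16 * R + 8) / (ε / 4))
  obtain ⟨f, hf⟩ : ∃ f : ℕ, f = f0 + m + 5 := ⟨_, rfl⟩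
  have hfL := two_pow_ge_aux f (by omega)
  obtain ⟨L, hL⟩ : ∃ L : ℕ, L = 2 ^ f := ⟨_, rfl⟩
  rw [← hL] at hfL
  have hL1 : 1 ≤ L := by omega
  have hLr1 : (1 : ℝ) ≤ L := by exact_mod_cast hL1
  have hLr : (L : ℝ) = 2 ^ f := by
    rw [hL]
    push_cast
    rfl
  obtain ⟨V, hV⟩ : ∃ V : ℕ, V = 20 * C * L := ⟨_, rfl⟩
  obtain ⟨q, hq⟩ : ∃ q : ℕ, q = V + f + 5 := ⟨_, rfl⟩
  obtain ⟨G, hG⟩ : ∃ G : ℕ, G = q + m + 5 := ⟨_, rfl⟩
  obtain ⟨M, hM⟩ : ∃ M : ℕ, M = ⌈(lam - 1) * L / δ⌉₊ := ⟨_, rfl⟩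
  have hML0 : 0 < (lam - 1) * L / δ := by positivity
  have hM1 : (lam - 1) * L / δ ≤ M := by
    rw [hM]
    exact Nat.le_ceil _
  have hM2 : (M : ℝ) ≤ lam * L / δ := by
    have h1 : (M : ℝ) < (lam - 1) * L / δ + 1 := by
      rw [hM]
      exact Nat.ceil_lt_add_one hML0.le
    have h2 : 1 ≤ L / δ := by
      rw [le_div_iff₀ hδ]
      linarith
    have h3 : lam * L / δ = (lam - 1) * L / δ + L / δ := by ring
    rw [h3]
    linarith
  have hM0 : 0 < M := by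
    rw [hM]
    exact Nat.ceil_pos.mpr hML0
  obtain ⟨J0, hJ0⟩ := pow_unbounded_of_one_lt R (show (1 : ℝ) < 2 by norm_num)
  obtain ⟨Z, hZ⟩ := pow_unbounded_of_one_lt ((32 * R + 1) / (δ * ε / 4)) (show (1 : ℝ) < 2 by norm_num)
  obtain ⟨W, hW⟩ : ∃ W : ℕ, W = 4 * C * (G + 5 + 3 * V) := ⟨_, rfl⟩
  have hWle : W ≤ 4 * C * ((80 * C + 2) * L) := by
    rw [hW]
    apply Nat.mul_le_mul_left
    rw [hG, hq]
    have e : (80 * C + 2) * L = 4 * (20 * C * L) + 2 * L := by ring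
    rw [e, ← hV]
    omega
  obtain ⟨Q, hQ⟩ : ∃ Q : ℝ, Q = 1 / (1 / 2 : ℝ) ^ (q + m + 5) := ⟨_, rfl⟩
  have hQ0 : 0 < Q := by
    rw [hQ]
    positivity
  obtain ⟨β, hβ⟩ : ∃ β : ℝ, β = ((2 : ℝ) ^ W) ^ D * (1 - δ / 6000) ^ M := ⟨_, rfl⟩
  have hx0 : 0 < 1 - δ / 6000 := by linarith
  have hβ0 : 0 < β := by
    rw [hβ]
    positivity
  have hβ1 : β < 1 := by
    rw [hβ]
    apply beta_aux hδ1
    have h1 : (W : ℝ) ≤ 4 * C * ((80 * C + 2) * L) := by exact_mod_cast hWle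
    have h2 : (D : ℝ) * W ≤ D * (4 * C * ((80 * C + 2) * L)) :=
      mul_le_mul_of_nonneg_left h1 (Nat.cast_nonneg D)
    have h3 : (lam - 1) * L / δ * (δ / 6000) ≤ M * (δ / 6000) :=
      mul_le_mul_of_nonneg_right hM1 (by positivity)
    have h4 : (lam - 1) * L / δ * (δ / 6000) = (lam - 1) * L / 6000 := by
      field_simp
    have h5 : (lam - 1) * L / 6000 =
        D * (4 * C * ((80 * C + 2) * L)) + (D + 2) * (4 * C * ((80 * C + 2) * L)) := by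
      rw [hlam]
      ring
    have h6 : 0 < ((D : ℝ) + 2) * (4 * C * ((80 * C + 2) * L)) := by positivity
    linarith
  obtain ⟨A, hA⟩ : ∃ A : ℝ, A = 8 * R * (D + 1) * 2 ^ (4 * C * J0) * Q := ⟨_, rfl⟩
  have hA0 : 0 < A := by
    rw [hA]
    have : 0 < R := by linarith
    positivity
  obtain ⟨K, hK⟩ : ∃ K : ℝ, K = A ^ D * (Q + 1) ^ M := ⟨_, rfl⟩
  have hK0 : 0 < K := by
    rw [hK]
    positivity
  obtain ⟨N0, hN0⟩ := exists_pow_lt_of_lt_one (show 0 < 1 / K by positivity) hβ1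
  obtain ⟨Nb, hNb⟩ : ∃ Nb : ℕ, Nb = N0 + l + 1 := ⟨_, rfl⟩
  have hKN : K * β ^ Nb < 1 := by
    have h1 : β ^ Nb ≤ β ^ N0 := pow_le_pow_of_le_one hβ0.le hβ1.le (by omega)
    have h2 : K * β ^ Nb < K * (1 / K) := mul_lt_mul_of_pos_left (lt_of_le_of_lt h1 hN0) hK0
    rw [mul_one_div_cancel hK0.ne'] at h2
    exact h2
  refine ⟨f, q, G, Nb, M, J0, 4 * C * J0 + Nb * W, Z, V, by omega, ?_, ?_, ?_, by omega, hM0,
    hJ0.le, ?_, ?_, ?_, ?_, ?_, ?_⟩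
  · rw [hV, hL]
  · rw [hq]
    omega
  · rw [hG]
  · rw [hW]
    apply le_of_eq
    ring
  · have h1 : 1 ≤ W := by
      rw [hW]
      have : 0 < 4 * C * (G + 5 + 3 * V) := by positivity
      omega
    have h2 : Nb ≤ Nb * W := Nat.le_mul_of_pos_right _ h1
    omega
  · rw [← hQ]
    have e1 : 8 * R * (D + 1) * 2 ^ (4 * C * J0 + Nb * W) / (1 / 2 : ℝ) ^ (q + m + 5) =
        A * ((2 : ℝ) ^ W) ^ Nb := by
      rw [hA, hQ, pow_add, Nat.mul_comm Nb W, pow_mul]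
      ring
    rw [e1, mul_pow, mul_pow, pow_right_comm ((2 : ℝ) ^ W) Nb D,
      pow_right_comm (1 - δ / 6000) Nb M]
    have e2 : A ^ D * (((2 : ℝ) ^ W) ^ D) ^ Nb * ((Q + 1) ^ M * ((1 - δ / 6000) ^ M) ^ Nb) =
        K * β ^ Nb := by
      rw [hK, hβ, mul_pow]
      ring
    rw [e2]
    exact hKN
  · have hR0 : 0 < 16 * R + 8 := by linarith
    have h1 : (L : ℝ) * L ≤ 2 ^ q := by
      have h2 : L * L ≤ 2 ^ q := by
        calc L * L ≤ 2 ^ L * 2 ^ L := Nat.mul_le_mul Nat.lt_two_pow_self.le Nat.lt_two_pow_self.le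
          _ = 2 ^ (L + L) := (pow_add 2 L L).symm
          _ ≤ 2 ^ q := by
            apply Nat.pow_le_pow_right (by norm_num)
            rw [hq, hV]
            have e : 20 * L ≤ 20 * C * L := Nat.mul_le_mul_right _ (by omega)
            omega
      exact_mod_cast h2
    have h2q : (0 : ℝ) < 2 ^ q := by positivity
    have hL0 : (0 : ℝ) < L := by linarith
    have hLf : 3 * (lam / δ) * (16 * R + 8) / (ε / 4) ≤ L := by
      refine hf0.trans ?_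
      have : f0 ≤ L := by omega
      exact_mod_cast this
    rw [div_le_iff₀ (by positivity)] at hLf
    rw [← mul_div_assoc, div_le_iff₀ h2q]
    have h3 : 3 * (M : ℝ) * (16 * R + 8) ≤ 3 * (lam * L / δ) * (16 * R + 8) := by
      apply mul_le_mul_of_nonneg_right _ hR0.le
      linarith
    have h4 : 3 * (lam * L / δ) * (16 * R + 8) = 3 * (lam / δ) * (16 * R + 8) * L := by ring
    rw [h4] at h3
    have h5 : 3 * (lam / δ) * (16 * R + 8) * L ≤ L * (ε / 4) * L :=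
      mul_le_mul_of_nonneg_right hLf hL0.le
    have h6 : L * (ε / 4) * L = ε / 4 * (L * L) := by ring
    rw [h6] at h5
    have h7 : ε / 4 * (L * L) ≤ ε / 4 * 2 ^ q := mul_le_mul_of_nonneg_left h1 (by positivity)
    exact h3.trans (h5.trans h7)
  · obtain ⟨x, hx⟩ : ∃ x : ℝ, x = (1 / 2 : ℝ) ^ f := ⟨_, rfl⟩
    have hx0' : 0 ≤ x := by
      rw [hx]
      positivity
    have hxL : x * L = 1 := by
      rw [hx, hLr, ← mul_pow]
      norm_num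
    have hx1 : x ≤ 1 / 2 := by
      have h1 : (1 / 2 : ℝ) ^ f ≤ (1 / 2 : ℝ) ^ 1 :=
        pow_le_pow_of_le_one (by norm_num) (by norm_num) (by omega)
      rw [pow_one] at h1
      rw [hx]
      exact h1
    rw [← hx]
    have h1 := pow_le_pow_left₀ (Real.exp_pos _).le (exp_neg_two_le_aux hx0' hx1) M
    rw [← Real.exp_nat_mul] at h1
    refine le_trans ?_ h1
    rw [hε]
    apply Real.exp_le_exp.mpr
    have h2 : (M : ℝ) * x ≤ lam * L / δ * x := mul_le_mul_of_nonneg_right hM2 hx0'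
    have h3 : lam * L / δ * x = lam / δ := by
      have : lam * L / δ * x = lam / δ * (x * L) := by ring
      rw [this, hxL, mul_one]
    rw [h3] at h2
    have h4 : -2 * lam / δ = -(2 * (lam / δ)) := by ring
    rw [h4]
    have h5 : (M : ℝ) * -(2 * x) = -(2 * (M * x)) := by ring
    rw [h5]
    linarith
  · have h2Z : (0 : ℝ) < 2 ^ Z := by positivity
    rw [div_lt_iff₀ (by positivity)] at hZ
    rw [div_le_iff₀ h2Z]
    linarith

end Pool.Agent.Helper71.GD
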