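import Pool.Agent.Helper71.GD.Spread

/-!
# GD-08 Positions: most positions of a regular window are good

In a regular window `[k, k + B)` of density `α` most windows `[x + i, x + i + J)` contain at least
`α J / 2` elements, and most windows of length `B₁` at least `α (1 - ε₁) B₁`, because the average is at
least `α (1 - ε)` minus a boundary term and all are at most `α (1 + ε)` (Markov's inequality). So there
are `M` good positions with distances at least `Δ`.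
-/

set_option autoImplicit false

namespace Pool.Agent.Helper71.GD

theorem sum_cnt (S : Set ℕ) (x n J : ℕ) :
    ∑ i ∈ Finset.range n, cnt S (x + i) J = ∑ j ∈ Finset.range J, cnt S (x + j) n := by
  unfold cnt
  rw [Finset.sum_comm]
  refine Finset.sum_congr rfl fun j _ => Finset.sum_congr rfl fun i _ => ?_
  rw [show x + i + j = x + j + i by omega]

theorem sum_cnt_ge (S : Set ℕ) {x n J k B : ℕ} (hk : k ≤ x) (hB : x + n + J ≤ k + B) (hJn : J ≤ n) :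
    J * cnt S k B ≤ (∑ i ∈ Finset.range n, cnt S (x + i) J) + J * (B - (n - J)) := by
  rw [sum_cnt]
  have h1 : ∀ j ∈ Finset.range J, cnt S (x + J) (n - J) ≤ cnt S (x + j) n := by
    intro j hj
    have := Finset.mem_range.1 hj
    exact cnt_sub S (by omega) (by omega)
  have h2 := Finset.card_nsmul_le_sum _ _ _ h1
  rw [Finset.card_range, smul_eq_mul] at h2
  have h3 : cnt S k B ≤ cnt S (x + J) (n - J) + (B - (n - J)) :=
    cnt_le_sub_add S (by omega) (by omega)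
  calc J * cnt S k B ≤ J * (cnt S (x + J) (n - J) + (B - (n - J))) := Nat.mul_le_mul_left _ h3
    _ = J * cnt S (x + J) (n - J) + J * (B - (n - J)) := by ring
    _ ≤ _ := by omega

theorem markov (g : ℕ → ℕ) (n : ℕ) {U θ : ℝ} (h : ∀ i < n, (g i : ℝ) ≤ U) :
    (cnt {i | (g i : ℝ) < θ} 0 n : ℝ) * (U - θ) ≤ n * U - ∑ i ∈ Finset.range n, (g i : ℝ) := by
  classical
  unfold cnt
  push_cast
  rw [Finset.sum_mul]
  have h1 : (n : ℝ) * U - ∑ i ∈ Finset.range n, (g i : ℝ) =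
      ∑ i ∈ Finset.range n, (U - (g i : ℝ)) := by
    rw [Finset.sum_sub_distrib, Finset.sum_const, Finset.card_range, nsmul_eq_mul]
  rw [h1]
  refine Finset.sum_le_sum fun i hi => ?_
  have h2 := h i (Finset.mem_range.1 hi)
  rw [zero_add]
  split_ifs with h3
  · have h4 : (g i : ℝ) < θ := h3
    linarith
  · linarith

theorem bad_count {S : Set ℕ} {α ε θ : ℝ} {l k B x n J : ℕ} (hR : Reg S α ε l k B) (hα : 0 < α)
    (hε : 0 ≤ ε) (hl : l ≤ J) (hk : k ≤ x) (hB : x + n + J ≤ k + B) (hJn : J ≤ n) :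
    (cnt {i | (cnt S (x + i) J : ℝ) < θ} 0 n : ℝ) * (α * (1 + ε) * J - θ) ≤
      J * (2 * α * ε * B + (B - n + J)) := by
  have h1 := markov (fun i => cnt S (x + i) J) n (U := α * (1 + ε) * J) (θ := θ) (fun i hi =>
    hR.up (x + i) J hl (by omega) (by omega))
  refine h1.trans ?_
  have h2 := sum_cnt_ge S hk hB hJn
  have hnB : n ≤ B := by omega
  have h3 : (J : ℝ) * cnt S k B ≤ (∑ i ∈ Finset.range n, (cnt S (x + i) J : ℝ)) +
      J * (B - (n - J)) := by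
    have h4 : ((J * cnt S k B : ℕ) : ℝ) ≤
        (((∑ i ∈ Finset.range n, cnt S (x + i) J) + J * (B - (n - J)) : ℕ) : ℝ) := by
      exact_mod_cast h2
    push_cast [Nat.cast_sub hJn, Nat.cast_sub (show n - J ≤ B by omega)] at h4
    exact h4
  have h5 := mul_le_mul_of_nonneg_left hR.low (Nat.cast_nonneg (α := ℝ) J)
  have hnB' : (n : ℝ) ≤ B := by exact_mod_cast hnB
  have h6 : (n : ℝ) * (α * (1 + ε) * J) ≤ B * (α * (1 + ε) * J) :=
    mul_le_mul_of_nonneg_right hnB' (by positivity)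
  nlinarith

theorem cnt_cover (A B : Set ℕ) (n : ℕ) :
    n ≤ cnt {i | i ∉ A ∧ i ∉ B} 0 n + cnt A 0 n + cnt B 0 n := by
  induction n with
  | zero => exact Nat.zero_le _
  | succ n ih =>
    rw [cnt_add, cnt_add, cnt_add, zero_add]
    have h1 : 1 ≤ cnt {i | i ∉ A ∧ i ∉ B} n 1 + cnt A n 1 + cnt B n 1 := by
      by_cases h2 : n ∈ A
      · rw [cnt_succ_left A n 0 h2]
        omega
      · by_cases h3 : n ∈ B
        · rw [cnt_succ_left B n 0 h3]
          omega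
        · rw [cnt_succ_left {i | i ∉ A ∧ i ∉ B} n 0 ⟨h2, h3⟩]
          omega
    omega

theorem positions {S : Set ℕ} {α ε ε₁ : ℝ} {C l k B M J q B₁ Δ : ℕ} (hR : Reg S α ε l k B)
    (hα : 1 ≤ C * α) (hε : 0 ≤ ε) (hε₁ : 0 < ε₁) (hε₁2 : ε₁ ≤ 1 / 2) (hεε : 32 * ε ≤ ε₁)
    (hlJ : l ≤ J) (hlB : l ≤ B₁) (hJ : 0 < J) (hB₁ : 0 < B₁) (hΔ1 : J ≤ Δ) (hΔ2 : q + B₁ ≤ Δ)
    (hB1 : 100 * C * Δ / ε₁ ≤ B) (hB2 : 4 * M * Δ ≤ B) :
    ∃ P : ℕ → ℕ, Δ ≤ P 0 ∧ (∀ b, P b + Δ ≤ P (b + 1)) ∧ ∀ b < M, P b + Δ ≤ B ∧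
      J ≤ 2 * C * cnt S (k + P b - J) J ∧ Reg S α ε₁ l (k + P b + q) B₁ := by
  have hC : 0 < C := by
    rcases Nat.eq_zero_or_pos C with h | h
    · subst h
      norm_num at hα
    · exact h
  have hCr : (1 : ℝ) ≤ C := by exact_mod_cast hC
  have hα0 : 0 < α := by
    by_contra hcon
    push Not at hcon
    nlinarith
  have hJr : (0 : ℝ) < J := by exact_mod_cast hJ
  have hB₁r : (0 : ℝ) < B₁ := by exact_mod_cast hB₁
  have hΔ0 : (1 : ℝ) ≤ Δ := by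
    have : 1 ≤ Δ := by omega
    exact_mod_cast this
  have hΔJ : (J : ℝ) ≤ Δ := by exact_mod_cast hΔ1
  have hΔB : (B₁ : ℝ) ≤ Δ := by
    have : B₁ ≤ Δ := by omega
    exact_mod_cast this
  rw [div_le_iff₀ hε₁] at hB1
  have hCΔ : (Δ : ℝ) ≤ C * Δ := by nlinarith
  have hB200 : 200 * (C * Δ : ℝ) ≤ B := by
    have h1 : (B : ℝ) * ε₁ ≤ B * (1 / 2) := mul_le_mul_of_nonneg_left hε₁2 (Nat.cast_nonneg _)
    nlinarith
  have hBΔ : 200 * (Δ : ℝ) ≤ B := by linarith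
  have hBΔn : 200 * Δ ≤ B := by exact_mod_cast hBΔ
  obtain ⟨n, hn⟩ : ∃ n, n = B - 2 * Δ := ⟨_, rfl⟩
  have hnr : (n : ℝ) = B - 2 * Δ := by
    rw [hn, Nat.cast_sub (by omega)]
    push_cast
    ring
  -- the outer windows
  have ha := bad_count (θ := α * J / 2) (x := k + Δ - J) (n := n) (J := J) hR hα0 hε hlJ
    (by omega) (by omega) (by omega)
  have hb := bad_count (θ := α * (1 - ε₁) * B₁) (x := k + Δ + q) (n := n) (J := B₁) hR hα0 hε hlB
    (by omega) (by omega) (by omega)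
  obtain ⟨Ba, hBa⟩ : ∃ Ba : Set ℕ, Ba = {i | (cnt S (k + Δ - J + i) J : ℝ) < α * J / 2} :=
    ⟨_, rfl⟩
  obtain ⟨Bb, hBb⟩ : ∃ Bb : Set ℕ,
      Bb = {i | (cnt S (k + Δ + q + i) B₁ : ℝ) < α * (1 - ε₁) * B₁} := ⟨_, rfl⟩
  rw [← hBa] at ha
  rw [← hBb] at hb
  have hca : (0 : ℝ) ≤ cnt Ba 0 n := Nat.cast_nonneg _
  have hcb : (0 : ℝ) ≤ cnt Bb 0 n := Nat.cast_nonneg _
  have hBr : (0 : ℝ) ≤ B := Nat.cast_nonneg _
  -- `Δ ≤ α C Δ`
  have hΔα : (Δ : ℝ) ≤ α * (C * Δ) := by nlinarith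
  have ha' : (cnt Ba 0 n : ℝ) ≤ B / 8 := by
    have h1 : (cnt Ba 0 n : ℝ) * (α * J / 2) ≤ J * (2 * α * ε * B + 3 * (α * (C * Δ))) := by
      have h2 : (cnt Ba 0 n : ℝ) * (α * J / 2) ≤
          (cnt Ba 0 n : ℝ) * (α * (1 + ε) * J - α * J / 2) := by
        refine mul_le_mul_of_nonneg_left ?_ hca
        have : 0 ≤ α * ε * J := by positivity
        nlinarith
      refine h2.trans (ha.trans (mul_le_mul_of_nonneg_left ?_ hJr.le))
      rw [hnr]
      linarith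
    have h3 : (α * J / 2) * (cnt Ba 0 n : ℝ) ≤ (α * J / 2) * (4 * ε * B + 6 * (C * Δ)) := by
      nlinarith
    have h4 := le_of_mul_le_mul_left h3 (by positivity)
    have h5 : 4 * ε * B ≤ B / 16 := by nlinarith
    linarith
  have hb' : (cnt Bb 0 n : ℝ) ≤ B / 8 := by
    have h1 : (cnt Bb 0 n : ℝ) * (α * ε₁ * B₁) ≤ B₁ * (2 * α * ε * B + 3 * (α * (C * Δ))) := by
      have h2 : (cnt Bb 0 n : ℝ) * (α * ε₁ * B₁) ≤
          (cnt Bb 0 n : ℝ) * (α * (1 + ε) * B₁ - α * (1 - ε₁) * B₁) := by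
        refine mul_le_mul_of_nonneg_left ?_ hcb
        have : 0 ≤ α * ε * B₁ := by positivity
        nlinarith
      refine h2.trans (hb.trans (mul_le_mul_of_nonneg_left ?_ hB₁r.le))
      rw [hnr]
      linarith
    have h3 : (α * B₁) * ((cnt Bb 0 n : ℝ) * ε₁) ≤ (α * B₁) * (2 * ε * B + 3 * (C * Δ)) := by
      nlinarith
    have h4 := le_of_mul_le_mul_left h3 (by positivity)
    have h5 : 2 * ε * B ≤ B / 16 * ε₁ := by nlinarith
    have h6 : 3 * (C * Δ : ℝ) ≤ B / 16 * ε₁ := by nlinarith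
    have h7 : (cnt Bb 0 n : ℝ) * ε₁ ≤ B / 8 * ε₁ := by linarith
    exact le_of_mul_le_mul_right h7 hε₁
  -- the good positions
  have hgood := cnt_cover Ba Bb n
  have hgood' : M * Δ ≤ cnt {i | i ∉ Ba ∧ i ∉ Bb} 0 n := by
    have h1 : (n : ℝ) ≤ cnt {i | i ∉ Ba ∧ i ∉ Bb} 0 n + cnt Ba 0 n + cnt Bb 0 n := by
      exact_mod_cast hgood
    have h2 : (4 * M * Δ : ℝ) ≤ B := by exact_mod_cast hB2
    have h3 : ((M * Δ : ℕ) : ℝ) ≤ cnt {i | i ∉ Ba ∧ i ∉ Bb} 0 n := by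
      push_cast
      rw [hnr] at h1
      linarith
    exact_mod_cast h3
  obtain ⟨P, -, hP2, hP3⟩ := spread (Q := {i | i ∉ Ba ∧ i ∉ Bb}) (s := Δ) (by omega) M 0 n hgood'
  refine ⟨fun b => Δ + P b, by show Δ ≤ Δ + P 0; omega, fun b => ?_, fun b hb => ?_⟩
  · have := hP2 b
    show Δ + P b + Δ ≤ Δ + P (b + 1)
    omega
  · obtain ⟨⟨h1, h2⟩, h3⟩ := hP3 b hb
    rw [hBa] at h1
    rw [hBb] at h2
    have h1' : α * J / 2 ≤ (cnt S (k + Δ - J + P b) J : ℝ) := not_lt.1 h1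
    have h2' : α * (1 - ε₁) * B₁ ≤ (cnt S (k + Δ + q + P b) B₁ : ℝ) := not_lt.1 h2
    refine ⟨by show Δ + P b + Δ ≤ B; omega, ?_, ?_⟩
    · show J ≤ 2 * C * cnt S (k + (Δ + P b) - J) J
      rw [show k + (Δ + P b) - J = k + Δ - J + P b by omega]
      have h4 : (J : ℝ) ≤ 2 * C * cnt S (k + Δ - J + P b) J := by
        have h5 : (J : ℝ) ≤ C * α * J := by nlinarith
        nlinarith
      exact_mod_cast h4
    · show Reg S α ε₁ l (k + (Δ + P b) + q) B₁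
      refine hR.sub hα0.le (by linarith) le_rfl (by omega) (by omega) ?_
      rw [show k + (Δ + P b) + q = k + Δ + q + P b by omega]
      exact h2'

end Pool.Agent.Helper71.GD
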