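import Pool.Agent.Helper71.GD.EscapeSup
import Pool.Agent.Helper71.GD.Blocks
import Pool.Agent.Helper69.GE.Net
import Pool.Agent.Helper69.GE.Choose

/-!
# GD-09 Select: `GE.select` for dense outer windows

The points `ν_b a j` of `blocks`; `w_b a j = 2 ^ (p b) ⟨r, u (ν_b a j)⟩`.
-/

set_option autoImplicit false

open MeasureTheory Set

namespace Pool.Agent.Helper71.GD

open Pool.Agent.Helper69.GE

private theorem half_pow {m n : ℕ} (h : m ≤ n) :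
    (1 / 2 : ℝ) ^ m = 2 ^ (n - m) * (1 / 2 : ℝ) ^ n := by
  obtain ⟨d, rfl⟩ := Nat.exists_eq_add_of_le h
  rw [Nat.add_sub_cancel_left, pow_add, mul_left_comm, ← mul_pow]
  norm_num

/-- the values of an admissible form at two scales -/
private theorem ratio {D : ℕ} {S : Set ℕ} {u : ℕ → Fin D → ℝ} {R : ℝ} {r : Fin D → ℝ} (hR : 1 ≤ R)
    (hr : Adm S u R r) {n n' d : ℕ} (hn : n ∈ S) (hn' : n' ∈ S) (h : n' + d ≤ n) :
    2 ^ d * lin r (u n) ≤ 8 * lin r (u n') ∧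
      ∀ d', n ≤ n' + d' → lin r (u n') ≤ 8 * (2 ^ d' * lin r (u n)) := by
  obtain ⟨ρ, hρ1, hρ2, hρ⟩ := hr.cmp
  have hρ0 : 0 < ρ := lt_of_lt_of_le (inv_pos.2 (by linarith)) hρ1
  have c1 := hρ n hn
  have c2 := hρ n' hn'
  constructor
  · have d1 : (2 : ℝ) ^ d * (1 / 2 : ℝ) ^ n ≤ (1 / 2 : ℝ) ^ n' := by
      rw [half_pow (show n' ≤ n by omega)]
      exact mul_le_mul_of_nonneg_right (pow_le_pow_right₀ (by norm_num) (by omega)) (by positivity)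
    calc (2 : ℝ) ^ d * lin r (u n) ≤ 2 ^ d * (8 * ρ * (1 / 2 : ℝ) ^ n) :=
          mul_le_mul_of_nonneg_left c1.2 (by positivity)
      _ = 8 * (ρ * (2 ^ d * (1 / 2 : ℝ) ^ n)) := by ring
      _ ≤ 8 * (ρ * (1 / 2 : ℝ) ^ n') := by
          refine mul_le_mul_of_nonneg_left ?_ (by norm_num)
          exact mul_le_mul_of_nonneg_left d1 hρ0.le
      _ ≤ 8 * lin r (u n') := mul_le_mul_of_nonneg_left c2.1 (by norm_num)
  · intro d' hd'
    have d2 : (1 / 2 : ℝ) ^ n' ≤ 2 ^ d' * (1 / 2 : ℝ) ^ n := by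
      rw [half_pow (show n' ≤ n by omega)]
      exact mul_le_mul_of_nonneg_right (pow_le_pow_right₀ (by norm_num) (by omega)) (by positivity)
    calc lin r (u n') ≤ 8 * ρ * (1 / 2 : ℝ) ^ n' := c2.2
      _ ≤ 8 * ρ * (2 ^ d' * (1 / 2 : ℝ) ^ n) := mul_le_mul_of_nonneg_left d2 (by positivity)
      _ = 8 * (2 ^ d' * (ρ * (1 / 2 : ℝ) ^ n)) := by ring
      _ ≤ 8 * (2 ^ d' * lin r (u n)) := by
          refine mul_le_mul_of_nonneg_left ?_ (by norm_num)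
          exact mul_le_mul_of_nonneg_left c1.1 (by positivity)

theorem points {D : ℕ} {S : Set ℕ} {u : ℕ → Fin D → ℝ} {C p J J0 L G Nb W : ℕ} {R : ℝ} (hR : 1 ≤ R)
    (hC : 0 < C) (hL : 0 < L) (hJp : J ≤ p) (hW : W = 20 * C * L)
    (hcnt : J ≤ 2 * C * cnt S (p - J) J) (hJ : 4 * C * (Nb * (G + 5 + 3 * W) + J0) ≤ J)
    (hNb : 0 < Nb) (hJ0 : R ≤ 2 ^ J0) :
    ∃ ν : ℕ → ℕ → ℕ, (∀ a < Nb, ∀ j < L, ν a j ∈ S ∧ p - J ≤ ν a j ∧ ν a j < p) ∧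
      ∀ r, Adm S u R r →
        1 ≤ 2 ^ p * lin r (u (ν 0 0)) ∧
        (∀ a < Nb, ∀ j, j + 1 < L →
          2 * (2 ^ p * lin r (u (ν a j))) ≤ 2 ^ p * lin r (u (ν a (j + 1)))) ∧
        (∀ a < Nb, 2 ^ p * lin r (u (ν a (L - 1))) ≤
          2 ^ (W + 3) * (2 ^ p * lin r (u (ν a 0)))) ∧
        ∀ a, a + 1 < Nb → 2 ^ (G + 1) * (2 ^ p * lin r (u (ν a (L - 1)))) ≤
          2 ^ p * lin r (u (ν (a + 1) 0)) := by
  obtain ⟨ν, h1, h2, h3, h4⟩ := blocks hC hL hJp hW hcnt hJ hNb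
  have hdec : ∀ a < Nb, ∀ j, j < L → ν a j ≤ ν a 0 := by
    intro a ha j
    induction j with
    | zero => intro _; exact le_rfl
    | succ j ih =>
      intro hj
      have := ih (by omega)
      have := h2 a ha j hj
      omega
  refine ⟨ν, fun a ha j hj => ⟨(h1 a ha j hj).1, (h1 a ha j hj).2.1, by
    have := (h1 a ha j hj).2.2
    omega⟩, fun r hr => ?_⟩
  obtain ⟨ρ, hρ1, hρ2, hρ⟩ := hr.cmp
  have hRpos : 0 < R := by linarith
  have hρ0 : 0 < ρ := lt_of_lt_of_le (inv_pos.2 hRpos) hρ1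
  have hp : (0 : ℝ) < 2 ^ p := by positivity
  refine ⟨?_, ?_, ?_, ?_⟩
  · obtain ⟨a1, a2, a3⟩ := h1 0 hNb 0 hL
    have h5 := (hρ (ν 0 0) a1).1
    have h6 : (2 : ℝ) ^ p * (1 / 2 : ℝ) ^ (ν 0 0) = 2 ^ (p - ν 0 0) := by
      rw [half_pow (show ν 0 0 ≤ p by omega), mul_left_comm, ← mul_pow]
      norm_num
    have h7 : (2 : ℝ) ^ J0 ≤ 2 ^ (p - ν 0 0) :=
      pow_le_pow_right₀ (by norm_num) (by omega)
    have h8 : 1 ≤ ρ * 2 ^ (p - ν 0 0) := by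
      calc (1 : ℝ) = R⁻¹ * R := (inv_mul_cancel₀ hRpos.ne').symm
        _ ≤ ρ * 2 ^ (p - ν 0 0) := mul_le_mul hρ1 (hJ0.trans h7) hRpos.le hρ0.le
    calc (1 : ℝ) ≤ ρ * 2 ^ (p - ν 0 0) := h8
      _ = 2 ^ p * (ρ * (1 / 2 : ℝ) ^ (ν 0 0)) := by rw [← h6]; ring
      _ ≤ _ := mul_le_mul_of_nonneg_left h5 (by positivity)
  · intro a ha j hj
    have h5 := (ratio hR hr (h1 a ha j (by omega)).1 (h1 a ha (j + 1) hj).1 (h2 a ha j hj)).1
    have h6 : 2 * lin r (u (ν a j)) ≤ lin r (u (ν a (j + 1))) := by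
      have h7 := (hρ (ν a j) (h1 a ha j (by omega)).1).1
      have h8 : 0 < ρ * (1 / 2 : ℝ) ^ ν a j := by positivity
      norm_num at h5
      linarith
    calc 2 * (2 ^ p * lin r (u (ν a j))) = 2 ^ p * (2 * lin r (u (ν a j))) := by ring
      _ ≤ _ := mul_le_mul_of_nonneg_left h6 hp.le
  · intro a ha
    have h5 := (ratio (d := 0) hR hr (h1 a ha 0 hL).1 (h1 a ha (L - 1) (by omega)).1
      (by have := hdec a ha (L - 1) (by omega); omega)).2 W (h3 a ha)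
    calc 2 ^ p * lin r (u (ν a (L - 1))) ≤ 2 ^ p * (8 * (2 ^ W * lin r (u (ν a 0)))) :=
          mul_le_mul_of_nonneg_left h5 hp.le
      _ = _ := by
          rw [pow_add (2 : ℝ) W 3]
          ring
  · intro a ha
    have h5 := (ratio (d := G + 5) hR hr (h1 a (by omega) (L - 1) (by omega)).1
      (h1 (a + 1) ha 0 hL).1 (by have := h4 a ha; omega)).1
    have h7 := (hρ (ν a (L - 1)) (h1 a (by omega) (L - 1) (by omega)).1).1
    have h8 : 0 < lin r (u (ν a (L - 1))) := lt_of_lt_of_le (by positivity) h7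
    have h9 : (0 : ℝ) < 2 ^ G := by positivity
    have h6 : 2 ^ (G + 1) * lin r (u (ν a (L - 1))) ≤ lin r (u (ν (a + 1) 0)) := by
      rw [pow_add (2 : ℝ) G 5] at h5
      rw [pow_add (2 : ℝ) G 1]
      have : 0 < 2 ^ G * lin r (u (ν a (L - 1))) := by positivity
      nlinarith
    calc 2 ^ (G + 1) * (2 ^ p * lin r (u (ν a (L - 1)))) =
        2 ^ p * (2 ^ (G + 1) * lin r (u (ν a (L - 1)))) := by ring
      _ ≤ _ := mul_le_mul_of_nonneg_left h6 hp.le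

theorem select {D C f q m G Nb M J J0 W : ℕ} {δ e R : ℝ} (hδ : 0 < δ) (hδ1 : δ ≤ 1)
    (hR : 1 ≤ R) (hC : 0 < C) (hW : W = 20 * C * 2 ^ f) (hq : W + f + 4 ≤ q) (he0 : 0 < e)
    (he : 4 * e ≤ (1 / 2 : ℝ) ^ (q + m + 3)) (hG : 1 ≤ 2 ^ G * e) (hNb : 0 < Nb)
    (hJ0 : R ≤ 2 ^ J0) (hJ : 4 * C * (Nb * (G + 5 + 3 * W) + J0) ≤ J)
    (hnum : (8 * R * (D + 1) * 2 ^ J / e) ^ D * ((1 / e + 1) * (1 - δ / 6000) ^ Nb) ^ M < 1)
    (S : Set ℕ) (u : ℕ → Fin D → ℝ) (hu : ∀ n ∈ S, ∀ j, |u n j| ≤ (1 / 2 : ℝ) ^ n)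
    (p : ℕ → ℕ) (hp : ∀ b < M, J ≤ p b) (hb : ∀ b < M, J ≤ 2 * C * cnt S (p b - J) J)
    (H : ℕ → Set ℝ) (hH : ∀ b < M, Per (H b) ∧ Cell m (H b) ∧
      volume (H b ∩ Ico 0 1) ≤ ENNReal.ofReal δ ∧
      ENNReal.ofReal (δ / 4) ≤ volume (H b ∩ Ico 0 1)) :
    ∃ κ : ℕ → ℝ, (∀ b, 1 ≤ κ b ∧ κ b ≤ 2) ∧ ∀ r, Adm S u R r → ∃ b < M, ∀ X : ℝ, ∃ n ∈ S,
      p b - J ≤ n ∧ n < p b ∧
        ∀ z : ℝ, |z - (X + κ b * (2 ^ p b * lin r (u n)))| ≤ e → z ∈ Pat f q (H b) := by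
  have hL0 : 0 < 2 ^ f := by positivity
  have hpts : ∀ b, ∃ ν : ℕ → ℕ → ℕ, b < M →
      (∀ a < Nb, ∀ j < 2 ^ f, ν a j ∈ S ∧ p b - J ≤ ν a j ∧ ν a j < p b) ∧
      ∀ r, Adm S u R r →
        1 ≤ 2 ^ p b * lin r (u (ν 0 0)) ∧
        (∀ a < Nb, ∀ j, j + 1 < 2 ^ f →
          2 * (2 ^ p b * lin r (u (ν a j))) ≤ 2 ^ p b * lin r (u (ν a (j + 1)))) ∧
        (∀ a < Nb, 2 ^ p b * lin r (u (ν a (2 ^ f - 1))) ≤
          2 ^ (W + 3) * (2 ^ p b * lin r (u (ν a 0)))) ∧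
        ∀ a, a + 1 < Nb → 2 ^ (G + 1) * (2 ^ p b * lin r (u (ν a (2 ^ f - 1)))) ≤
          2 ^ p b * lin r (u (ν (a + 1) 0)) := by
    intro b
    by_cases h : b < M
    · obtain ⟨ν, hν⟩ := points (D := D) (S := S) (u := u) (C := C) (p := p b) (J := J)
        (J0 := J0) (L := 2 ^ f) (G := G) (Nb := Nb) (W := W) (R := R) hR hC hL0 (hp b h) hW
        (hb b h) hJ hNb hJ0
      exact ⟨ν, fun _ => hν⟩
    · exact ⟨fun _ _ => 0, fun h' => absurd h' h⟩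
  choose ν hν using hpts
  have hD : (0 : ℝ) < 2 * D + 2 := by positivity
  have h2J : (0 : ℝ) < 2 ^ J := by positivity
  set θ : ℝ := e / ((2 * D + 2) * 2 ^ J) with hθ
  have hθ0 : 0 < θ := by positivity
  have he1 : e ≤ 1 / 4 := by
    have h1 : (1 / 2 : ℝ) ^ (q + m + 3) ≤ 1 := pow_le_one₀ (by norm_num) (by norm_num)
    linarith
  obtain ⟨T, hT1, hT2, hT3⟩ := net S u hR hθ0
  set P : ℝ := (1 / e + 1) * (1 - δ / 6000) ^ Nb with hP
  have hP0 : 0 ≤ P := by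
    have h1 : 0 ≤ 1 - δ / 6000 := by linarith
    positivity
  have hcard : (T.card : ℝ) ≤ (8 * R * (D + 1) * 2 ^ J / e) ^ D := by
    refine hT1.trans (pow_le_pow_left₀ (by positivity) ?_ D)
    have h1 : 2 * R / θ = 4 * R * (D + 1) * 2 ^ J / e := by
      rw [hθ]
      field_simp
      ring
    have h2 : (2 : ℝ) ≤ 4 * R * (D + 1) * 2 ^ J / e := by
      rw [le_div_iff₀ he0]
      have h3 : (1 : ℝ) ≤ 2 ^ J := one_le_pow₀ (by norm_num)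
      have h4 : (0 : ℝ) ≤ D := by positivity
      have h5 : (1 : ℝ) ≤ R * (D + 1) * 2 ^ J := by
        have h6 : (1 : ℝ) ≤ R * (D + 1) := by nlinarith
        nlinarith
      nlinarith
    have h3 : 8 * R * (D + 1) * 2 ^ J / e = 4 * R * (D + 1) * 2 ^ J / e +
        4 * R * (D + 1) * 2 ^ J / e := by ring
    rw [h1, h3]
    linarith
  let Bad : ℕ → (Fin D → ℝ) → Set ℝ := fun b r => {κ : ℝ | ∃ X : ℝ, ∀ a < Nb, ∀ j < 2 ^ f,
      X + κ * (2 ^ p b * lin r (u (ν b a j))) ∉ Inr (Pat f q (H b)) (2 * e)}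
  have hBad : ∀ b < M, ∀ r ∈ T, volume (Bad b r ∩ Ico 1 2) ≤ ENNReal.ofReal P := by
    intro b hbM r hr
    obtain ⟨h1, h2, h3, h4⟩ := hH b hbM
    obtain ⟨h5, h6, h7, h8⟩ := (hν b hbM).2 r (hT2 r hr)
    refine escape_sup (w := fun a j => 2 ^ p b * lin r (u (ν b a j))) hδ hδ1 h1 h2 h3 h4 he0 he hG
      (fun _ => h5) h6 (fun a ha => ?_) h8
    have h9 := h7 a ha
    have h10 : 0 ≤ 2 ^ p b * lin r (u (ν b a 0)) := by
      obtain ⟨ρ, hρ1, hρ2, hρ⟩ := (hT2 r hr).cmp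
      have hρ0 : 0 < ρ := lt_of_lt_of_le (inv_pos.2 (by linarith)) hρ1
      have h11 := (hρ _ ((hν b hbM).1 a ha 0 hL0).1).1
      have h12 : 0 ≤ lin r (u (ν b a 0)) := le_trans (by positivity) h11
      positivity
    calc (2 : ℝ) ^ (f + 1) * (2 ^ p b * lin r (u (ν b a (2 ^ f - 1)))) ≤
        2 ^ (f + 1) * (2 ^ (W + 3) * (2 ^ p b * lin r (u (ν b a 0)))) :=
          mul_le_mul_of_nonneg_left h9 (by positivity)
      _ = 2 ^ (f + 1 + (W + 3)) * (2 ^ p b * lin r (u (ν b a 0))) := by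
          rw [pow_add (2 : ℝ) (f + 1) (W + 3)]
          ring
      _ ≤ 2 ^ q * (2 ^ p b * lin r (u (ν b a 0))) :=
          mul_le_mul_of_nonneg_right (pow_le_pow_right₀ (by norm_num) (by omega)) h10
  obtain ⟨κ, hκ1, hκ2⟩ := choose_dilations T M Bad hP0 hBad
    ((mul_le_mul_of_nonneg_right hcard (pow_nonneg hP0 M)).trans_lt hnum)
  refine ⟨κ, hκ1, ?_⟩
  intro r hr
  obtain ⟨r', hr'T, hr'⟩ := hT3 r hr
  obtain ⟨b, hbM, hb2⟩ := hκ2 r' hr'T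
  refine ⟨b, hbM, ?_⟩
  intro X
  have h1 : ∃ a < Nb, ∃ j < 2 ^ f,
      X + κ b * (2 ^ p b * lin r' (u (ν b a j))) ∈ Inr (Pat f q (H b)) (2 * e) := by
    by_contra hcon
    apply hb2
    refine ⟨X, fun a ha j hj hmem => hcon ⟨a, ha, j, hj, hmem⟩⟩
  obtain ⟨a, ha, j, hj, hmem⟩ := h1
  obtain ⟨h2, h3, h4⟩ := (hν b hbM).1 a ha j hj
  refine ⟨ν b a j, h2, h3, h4, ?_⟩
  intro z hz
  apply hmem
  have h5 : |lin r (u (ν b a j)) - lin r' (u (ν b a j))| ≤ D * θ * (1 / 2 : ℝ) ^ (ν b a j) :=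
    lin_sub_le hr' (hu _ h2)
  have h6 : (2 : ℝ) ^ p b * (1 / 2 : ℝ) ^ (ν b a j) ≤ 2 ^ J := by
    rw [one_div, inv_pow, ← div_eq_mul_inv, div_le_iff₀ (by positivity), ← pow_add]
    exact pow_le_pow_right₀ (by norm_num) (by have := hp b hbM; omega)
  have h7 : |(X + κ b * (2 ^ p b * lin r (u (ν b a j)))) -
      (X + κ b * (2 ^ p b * lin r' (u (ν b a j))))| ≤ e := by
    have h8 : (X + κ b * (2 ^ p b * lin r (u (ν b a j)))) -
        (X + κ b * (2 ^ p b * lin r' (u (ν b a j)))) =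
        κ b * 2 ^ p b * (lin r (u (ν b a j)) - lin r' (u (ν b a j))) := by ring
    obtain ⟨hk1, hk2⟩ := hκ1 b
    rw [h8, abs_mul, abs_of_nonneg (by positivity : (0 : ℝ) ≤ κ b * 2 ^ p b)]
    calc κ b * 2 ^ p b * |lin r (u (ν b a j)) - lin r' (u (ν b a j))|
        ≤ 2 * 2 ^ p b * (D * θ * (1 / 2 : ℝ) ^ (ν b a j)) := by
          refine mul_le_mul ?_ h5 (abs_nonneg _) (by positivity)
          exact mul_le_mul_of_nonneg_right hk2 (by positivity)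
      _ = 2 * D * θ * (2 ^ p b * (1 / 2 : ℝ) ^ (ν b a j)) := by ring
      _ ≤ 2 * D * θ * 2 ^ J := mul_le_mul_of_nonneg_left h6 (by positivity)
      _ = e * (2 * D / (2 * D + 2)) := by
          rw [hθ]
          field_simp
      _ ≤ e * 1 := by
          refine mul_le_mul_of_nonneg_left ?_ he0.le
          rw [div_le_one hD]
          linarith
      _ = e := mul_one e
  calc |z - (X + κ b * (2 ^ p b * lin r' (u (ν b a j))))|
      = |(z - (X + κ b * (2 ^ p b * lin r (u (ν b a j))))) +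
          ((X + κ b * (2 ^ p b * lin r (u (ν b a j)))) -
            (X + κ b * (2 ^ p b * lin r' (u (ν b a j)))))| := by congr 1; ring
    _ ≤ e + e := (abs_add_le _ _).trans (add_le_add hz h7)
    _ = 2 * e := by ring

end Pool.Agent.Helper71.GD
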