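import Pool.Agent.Helper71.GD.Defs

/-!
# GD-02 Spread: many elements contain well separated elements
-/

set_option autoImplicit false

namespace Pool.Agent.Helper71.GD

theorem spread {Q : Set ℕ} {s : ℕ} (hs : 0 < s) : ∀ M x y : ℕ, M * s ≤ cnt Q x y →
    ∃ P : ℕ → ℕ, x ≤ P 0 ∧ (∀ b, P b + s ≤ P (b + 1)) ∧ ∀ b < M, P b ∈ Q ∧ P b < x + y := by
  intro M
  induction M with
  | zero =>
    intro x y _
    refine ⟨fun b => x + b * s, by simp, fun b => ?_, fun b hb => absurd hb (Nat.not_lt_zero b)⟩
    show x + b * s + s ≤ x + (b + 1) * s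
    rw [add_mul, one_mul, add_assoc]
  | succ M ihM =>
    intro x y
    induction y generalizing x with
    | zero =>
      intro h
      rw [cnt_zero] at h
      exfalso
      have : 0 < (M + 1) * s := by positivity
      omega
    | succ y ihy =>
      intro h
      by_cases hx : x ∈ Q
      · have h1 : s ≤ y + 1 := by
          have h2 := cnt_le Q x (y + 1)
          have h3 : s ≤ (M + 1) * s := Nat.le_mul_of_pos_left _ (by omega)
          omega
        obtain ⟨d, hd⟩ := Nat.exists_eq_add_of_le h1
        rw [hd, cnt_add] at h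
        have h2 := cnt_le Q x s
        have h3 : (M + 1) * s = M * s + s := by ring
        obtain ⟨P, hP1, hP2, hP3⟩ := ihM (x + s) d (by omega)
        refine ⟨fun b => match b with
          | 0 => x
          | b + 1 => P b, le_rfl, fun b => ?_, fun b hb => ?_⟩
        · match b with
          | 0 => exact hP1
          | b + 1 => exact hP2 b
        · match b with
          | 0 => exact ⟨hx, by show x < x + (y + 1); omega⟩
          | b + 1 =>
            obtain ⟨h4, h5⟩ := hP3 b (by omega)
            exact ⟨h4, by show P b < x + (y + 1); omega⟩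
      · rw [cnt_succ_left' Q x y hx] at h
        obtain ⟨P, hP1, hP2, hP3⟩ := ihy (x + 1) h
        exact ⟨P, by omega, hP2, fun b hb => ⟨(hP3 b hb).1, by have := (hP3 b hb).2; omega⟩⟩

end Pool.Agent.Helper71.GD
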